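import Pool.Agent.Helper98.Sim.Defs

open scoped Classical BigOperators
open Finset

namespace Pool.Agent.Helper98.Sim

noncomputable section

namespace A1b

variable {V : Type}

/-- cone over a chain -/
def cone {k : ℕ} (v : V) : Ch V k →ₗ[ZMod 2] Ch V (k + 1) :=
  Finsupp.lmapDomain (ZMod 2) (ZMod 2) (fun σ => (Fin.cons v σ : Fin (k + 1) → V))

theorem cone_single {k : ℕ} (v : V) (σ : Fin k → V) (a : ZMod 2) :
    cone v (Finsupp.single σ a) = Finsupp.single (Fin.cons v σ : Fin (k + 1) → V) a := by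
  simp [cone, Finsupp.lmapDomain_apply, Finsupp.mapDomain_single]

theorem bd_single {k : ℕ} (σ : Fin (k + 1) → V) (a : ZMod 2) :
    bd (Finsupp.single σ a) =
      a • ∑ i : Fin (k + 1), Finsupp.single (fun j => σ (i.succAbove j)) (1 : ZMod 2) := by
  simp [bd, LinearMap.toSpanSingleton_apply]

theorem act_single {k : ℕ} (T : V → V) (σ : Fin k → V) (a : ZMod 2) :
    act T (Finsupp.single σ a) = Finsupp.single (T ∘ σ) a := by
  simp [act, Finsupp.lmapDomain_apply, Finsupp.mapDomain_single]

theorem add_self (k : ℕ) (x : Ch V k) : x + x = 0 := by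
  ext σ
  simp only [Finsupp.add_apply, Finsupp.zero_apply]
  exact CharTwo.add_self_eq_zero _

theorem bd_cone {k : ℕ} (v : V) (c : Ch V (k + 1)) : bd (cone v c) = c + cone v (bd c) := by
  induction c using Finsupp.induction_linear with
  | zero => simp
  | add f g hf hg => rw [map_add, map_add, hf, hg, map_add, map_add]; abel
  | single σ a =>
    rw [cone_single, bd_single, bd_single, map_smul, map_sum, Fin.sum_univ_succ, smul_add]
    congr 1
    · rw [Finsupp.smul_single, smul_eq_mul, mul_one]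
      congr 1
    · congr 1
      apply Finset.sum_congr rfl
      intro i _
      rw [cone_single]
      congr 1
      funext j
      refine Fin.cases ?_ (fun j => ?_) j
      · simp
      · simp

theorem bd_cone0 (v : V) (c : Ch V 0) : bd (cone v c) = c := by
  induction c using Finsupp.induction_linear with
  | zero => simp
  | add f g hf hg => rw [map_add, map_add, hf, hg]
  | single σ a =>
    rw [cone_single, bd_single]
    rw [Fin.sum_univ_one, Finsupp.smul_single, smul_eq_mul, mul_one]
    congr 1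

theorem single_eq_cone {k : ℕ} (σ : Fin (k + 1) → V) (a : ZMod 2) :
    Finsupp.single σ a = cone (σ 0) (Finsupp.single (Fin.tail σ) a) := by
  rw [cone_single, Fin.cons_self_tail]

theorem bd_bd {k : ℕ} (c : Ch V (k + 2)) : bd (bd c) = 0 := by
  induction k with
  | zero =>
    induction c using Finsupp.induction_linear with
    | zero => simp
    | add f g hf hg => rw [map_add, map_add, hf, hg, add_zero]
    | single σ a =>
      rw [single_eq_cone, bd_cone, map_add, bd_cone0, add_self]
  | succ k ih =>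
    induction c using Finsupp.induction_linear with
    | zero => simp
    | add f g hf hg => rw [map_add, map_add, hf, hg, add_zero]
    | single σ a =>
      rw [single_eq_cone, bd_cone, map_add, bd_cone, ih, map_zero, add_zero, add_self]

theorem act_cone {k : ℕ} (T : V → V) (v : V) (c : Ch V k) :
    act T (cone v c) = cone (T v) (act T c) := by
  induction c using Finsupp.induction_linear with
  | zero => simp
  | add f g hf hg => rw [map_add, map_add, hf, hg, map_add, map_add]
  | single σ a =>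
    rw [cone_single, act_single, act_single, cone_single]
    congr 1
    funext j
    refine Fin.cases ?_ (fun j => ?_) j <;> simp

theorem act_bd {k : ℕ} (T : V → V) (c : Ch V (k + 1)) : act T (bd c) = bd (act T c) := by
  induction c using Finsupp.induction_linear with
  | zero => simp
  | add f g hf hg => rw [map_add, map_add, hf, hg, map_add, map_add]
  | single σ a =>
    rw [act_single, bd_single, bd_single, map_smul, map_sum]
    congr 1
    apply Finset.sum_congr rfl
    intro i _
    rw [act_single]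
    rfl

theorem act_act {k : ℕ} (T : V → V) (hT : ∀ v, T (T v) = v) (c : Ch V k) :
    act T (act T c) = c := by
  induction c using Finsupp.induction_linear with
  | zero => simp
  | add f g hf hg => rw [map_add, map_add, hf, hg]
  | single σ a =>
    rw [act_single, act_single]
    congr 1
    funext j
    simp [hT]

theorem supp_cone {k : ℕ} (v : V) (c : Ch V k) (τ : Fin (k + 1) → V)
    (h : τ ∈ (cone v c).support) : ∃ σ ∈ c.support, τ = Fin.cons v σ := by
  have h1 := Finsupp.mapDomain_support h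
  rw [Finset.mem_image] at h1
  obtain ⟨σ, hσ, rfl⟩ := h1
  exact ⟨σ, hσ, rfl⟩

theorem supp_act {k : ℕ} (T : V → V) (c : Ch V k) (τ : Fin k → V)
    (h : τ ∈ (act T c).support) : ∃ σ ∈ c.support, τ = T ∘ σ := by
  have h1 := Finsupp.mapDomain_support h
  rw [Finset.mem_image] at h1
  obtain ⟨σ, hσ, rfl⟩ := h1
  exact ⟨σ, hσ, rfl⟩

theorem supp_add {k : ℕ} (c d : Ch V k) (τ : Fin k → V)
    (h : τ ∈ (c + d).support) : τ ∈ c.support ∨ τ ∈ d.support := by
  have := Finsupp.support_add h
  rwa [Finset.mem_union] at this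

/-- support of a linear image -/
theorem supp_linear {k l : ℕ} (F : Ch V k →ₗ[ZMod 2] Ch V l) (c : Ch V k) (τ : Fin l → V)
    (h : τ ∈ (F c).support) : ∃ σ ∈ c.support, τ ∈ (F (Finsupp.single σ 1)).support := by
  have h1 : F c = ∑ σ ∈ c.support, c σ • F (Finsupp.single σ 1) := by
    conv_lhs => rw [← Finsupp.sum_single c]
    rw [Finsupp.sum, map_sum]
    apply Finset.sum_congr rfl
    intro σ _
    rw [← map_smul, Finsupp.smul_single, smul_eq_mul, mul_one]
  rw [h1] at h
  have h2 := Finsupp.support_finsetSum h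
  rw [Finset.mem_biUnion] at h2
  obtain ⟨σ, hσ, h3⟩ := h2
  exact ⟨σ, hσ, Finsupp.support_smul h3⟩

theorem supp_bd {k : ℕ} (σ : Fin (k + 1) → V) (τ : Fin k → V)
    (h : τ ∈ (bd (Finsupp.single σ (1 : ZMod 2))).support) :
    ∃ i : Fin (k + 1), τ = fun j => σ (i.succAbove j) := by
  rw [bd_single, one_smul] at h
  have h2 := Finsupp.support_finsetSum h
  rw [Finset.mem_biUnion] at h2
  obtain ⟨i, _, h3⟩ := h2
  refine ⟨i, ?_⟩
  have h4 := Finsupp.support_single_subset h3
  simpa using h4

/-! ### barycentric subdivision -/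

variable {N : ℕ}

/-- barycentre -/
def bary {k : ℕ} (σ : Fin (k + 1) → (Fin (N + 1) → ℝ)) : Fin (N + 1) → ℝ :=
  (1 / (k + 1 : ℝ)) • ∑ i, σ i

def Sd : (k : ℕ) → Ch (Fin (N + 1) → ℝ) k →ₗ[ZMod 2] Ch (Fin (N + 1) → ℝ) k
  | 0 => LinearMap.id
  | k + 1 => Finsupp.lsum (ZMod 2) (fun σ => LinearMap.toSpanSingleton (ZMod 2) _
      (cone (bary σ) (Sd k (bd (Finsupp.single σ 1)))))

theorem Sd_single (k : ℕ) (σ : Fin (k + 1) → (Fin (N + 1) → ℝ)) (a : ZMod 2) :
    Sd (k + 1) (Finsupp.single σ a) = a • cone (bary σ) (Sd k (bd (Finsupp.single σ 1))) := by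
  simp [Sd, LinearMap.toSpanSingleton_apply]

theorem bd_Sd (k : ℕ) (c : Ch (Fin (N + 1) → ℝ) (k + 1)) : bd (Sd (k + 1) c) = Sd k (bd c) := by
  induction k with
  | zero =>
    induction c using Finsupp.induction_linear with
    | zero => simp
    | add f g hf hg => rw [map_add, map_add, hf, hg, map_add, map_add]
    | single σ a =>
      rw [Sd_single, map_smul, bd_cone0, ← map_smul, ← map_smul, Finsupp.smul_single, smul_eq_mul,
        mul_one]
  | succ k ih =>
    induction c using Finsupp.induction_linear with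
    | zero => simp
    | add f g hf hg => rw [map_add, map_add, hf, hg, map_add, map_add]
    | single σ a =>
      rw [Sd_single, map_smul, bd_cone, ih, bd_bd, map_zero, map_zero, add_zero, ← map_smul,
        ← map_smul, Finsupp.smul_single, smul_eq_mul, mul_one]

theorem bary_neg {k : ℕ} (σ : Fin (k + 1) → (Fin (N + 1) → ℝ)) :
    bary ((fun x => -x) ∘ σ) = - bary σ := by
  unfold bary
  rw [← smul_neg]
  congr 1
  simp

theorem act_Sd (k : ℕ) (c : Ch (Fin (N + 1) → ℝ) k) :
    act (fun x => -x) (Sd k c) = Sd k (act (fun x => -x) c) := by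
  induction k with
  | zero => rfl
  | succ k ih =>
    induction c using Finsupp.induction_linear with
    | zero => simp
    | add f g hf hg => rw [map_add, map_add, hf, hg, map_add, map_add]
    | single σ a =>
      rw [Sd_single, map_smul, act_cone, ih, act_bd, act_single, act_single, Sd_single, bary_neg]

theorem bary_mem {k : ℕ} (σ : Fin (k + 1) → (Fin (N + 1) → ℝ)) :
    bary σ ∈ convexHull ℝ (Set.range σ) := by
  have hk : (0 : ℝ) < k + 1 := by positivity
  have h1 : bary σ = ∑ i : Fin (k + 1), (1 / (k + 1 : ℝ)) • σ i := by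
    unfold bary
    rw [Finset.smul_sum]
  rw [h1]
  apply (convex_convexHull ℝ (Set.range σ)).sum_mem
  · intro i _; positivity
  · simp
    field_simp
  · intro i _
    exact subset_convexHull _ _ ⟨i, rfl⟩

theorem bary_dist {k : ℕ} (σ : Fin (k + 1) → (Fin (N + 1) → ℝ)) (d : ℝ)
    (hd : ∀ i i', dist (σ i) (σ i') ≤ d) (x : Fin (N + 1) → ℝ)
    (hx : x ∈ convexHull ℝ (Set.range σ)) : dist (bary σ) x ≤ k / (k + 1 : ℝ) * d := by
  have hk : (0 : ℝ) < k + 1 := by positivity
  have hsub : Set.range σ ⊆ Metric.closedBall (bary σ) (k / (k + 1 : ℝ) * d) := by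
    rintro _ ⟨j, rfl⟩
    rw [Metric.mem_closedBall, dist_comm, dist_eq_norm]
    have h1 : bary σ - σ j = (1 / (k + 1 : ℝ)) • ∑ i, (σ i - σ j) := by
      unfold bary
      rw [Finset.sum_sub_distrib, smul_sub]
      congr 1
      rw [Finset.sum_const, Finset.card_univ, Fintype.card_fin, ← Nat.cast_smul_eq_nsmul ℝ,
        smul_smul]
      push_cast
      rw [one_div, inv_mul_cancel₀ hk.ne', one_smul]
    rw [h1, norm_smul, Real.norm_eq_abs, abs_of_pos (by positivity)]
    have h2 : ‖∑ i, (σ i - σ j)‖ ≤ k * d := by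
      rw [← Finset.sum_erase_add _ _ (Finset.mem_univ j), sub_self, add_zero]
      refine (norm_sum_le _ _).trans ?_
      have h3 : ∀ i ∈ Finset.univ.erase j, ‖σ i - σ j‖ ≤ d := fun i _ => by
        rw [← dist_eq_norm]; exact hd i j
      refine (Finset.sum_le_sum h3).trans ?_
      rw [Finset.sum_const, Finset.card_erase_of_mem (Finset.mem_univ j), Finset.card_univ,
        Fintype.card_fin]
      simp
    calc 1 / (k + 1 : ℝ) * ‖∑ i, (σ i - σ j)‖ ≤ 1 / (k + 1 : ℝ) * (k * d) :=
          mul_le_mul_of_nonneg_left h2 (by positivity)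
      _ = k / (k + 1 : ℝ) * d := by ring
  have h4 := convexHull_min hsub (convex_closedBall _ _) hx
  rw [dist_comm]
  exact h4

theorem supp_Sd_single (k : ℕ) (hk : k ≤ N + 1) (σ : Fin k → (Fin (N + 1) → ℝ)) (d : ℝ)
    (hd : ∀ i i', dist (σ i) (σ i') ≤ d) (τ : Fin k → (Fin (N + 1) → ℝ))
    (hτ : τ ∈ (Sd k (Finsupp.single σ 1)).support) :
    (∀ i, τ i ∈ convexHull ℝ (Set.range σ)) ∧
      ∀ i i', dist (τ i) (τ i') ≤ N / (N + 1 : ℝ) * d := by
  induction k with
  | zero => exact ⟨fun i => i.elim0, fun i => i.elim0⟩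
  | succ k ih =>
    rw [Sd_single, one_smul] at hτ
    obtain ⟨τ', hτ', rfl⟩ := supp_cone _ _ _ hτ
    obtain ⟨ρ, hρ, hτρ⟩ := supp_linear _ _ _ hτ'
    obtain ⟨i0, rfl⟩ := supp_bd _ _ hρ
    obtain ⟨h1, h2⟩ := ih (by omega) (fun j => σ (i0.succAbove j)) (fun i i' => hd _ _) τ' hτρ
    have hd0 : 0 ≤ d := dist_nonneg.trans (hd 0 0)
    have hmono : convexHull ℝ (Set.range fun j => σ (i0.succAbove j)) ⊆
        convexHull ℝ (Set.range σ) := by
      apply convexHull_mono
      rintro _ ⟨j, rfl⟩
      exact ⟨_, rfl⟩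
    have hb := bary_mem σ
    have hkN : (k : ℝ) / (k + 1) ≤ N / (N + 1) := by
      have : (k : ℝ) ≤ N := by exact_mod_cast (by omega : k ≤ N)
      rw [div_le_div_iff₀ (by positivity) (by positivity)]
      nlinarith
    have hle : (k : ℝ) / (k + 1) * d ≤ N / (N + 1) * d := mul_le_mul_of_nonneg_right hkN hd0
    constructor
    · intro i
      refine Fin.cases ?_ (fun j => ?_) i
      · simpa using hb
      · simpa using hmono (h1 j)
    · intro i i'
      refine Fin.cases ?_ (fun j => ?_) i <;> refine Fin.cases ?_ (fun j' => ?_) i'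
      · simp only [Fin.cons_zero, dist_self]
        positivity
      · simp only [Fin.cons_zero, Fin.cons_succ]
        exact (bary_dist σ d hd _ (hmono (h1 j'))).trans hle
      · simp only [Fin.cons_zero, Fin.cons_succ]
        rw [dist_comm]
        exact (bary_dist σ d hd _ (hmono (h1 j))).trans hle
      · simp only [Fin.cons_succ]
        exact h2 j j'

/-- a convex piece of the cross polytope surface -/
def Oct (ε : Fin (N + 1) → ℝ) : Set (Fin (N + 1) → ℝ) :=
  {x | (∀ j, 0 ≤ ε j * x j) ∧ ∑ j, ε j * x j = 1}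

theorem Oct_convex (ε : Fin (N + 1) → ℝ) : Convex ℝ (Oct ε) := by
  intro x hx y hy a b ha hb hab
  constructor
  · intro j
    simp only [Pi.add_apply, Pi.smul_apply, smul_eq_mul]
    have h1 := hx.1 j
    have h2 := hy.1 j
    have : ε j * (a * x j + b * y j) = a * (ε j * x j) + b * (ε j * y j) := by ring
    rw [this]
    positivity
  · have : ∑ j, ε j * (a • x + b • y) j = a * ∑ j, ε j * x j + b * ∑ j, ε j * y j := by
      rw [Finset.mul_sum, Finset.mul_sum, ← Finset.sum_add_distrib]
      apply Finset.sum_congr rfl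
      intro j _
      simp only [Pi.add_apply, Pi.smul_apply, smul_eq_mul]
      ring
    rw [this, hx.2, hy.2]
    linarith

theorem Oct_sum (ε : Fin (N + 1) → ℝ) (hε : ∀ j, ε j = 1 ∨ ε j = -1) (x : Fin (N + 1) → ℝ)
    (hx : x ∈ Oct ε) : ∑ j, |x j| = 1 := by
  rw [← hx.2]
  apply Finset.sum_congr rfl
  intro j _
  have h1 := hx.1 j
  rcases hε j with h | h
  · rw [h, one_mul] at h1 ⊢
    exact abs_of_nonneg h1
  · rw [h] at h1 ⊢
    rw [abs_of_nonpos (by linarith)]
    ring

/-- all simplices of the chain are fine and lie in pieces of the surface -/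
def GoodCh (δ : ℝ) {k : ℕ} (c : Ch (Fin (N + 1) → ℝ) k) : Prop :=
  ∀ σ ∈ c.support, (∃ ε : Fin (N + 1) → ℝ, (∀ j, ε j = 1 ∨ ε j = -1) ∧ ∀ i, σ i ∈ Oct ε) ∧
    ∀ i i', dist (σ i) (σ i') ≤ δ

theorem good_Sd (δ : ℝ) (k : ℕ) (hk : k ≤ N + 1) (c : Ch (Fin (N + 1) → ℝ) k)
    (hc : GoodCh δ c) : GoodCh (N / (N + 1 : ℝ) * δ) (Sd k c) := by
  intro τ hτ
  obtain ⟨σ, hσ, hτσ⟩ := supp_linear _ _ _ hτ
  obtain ⟨⟨ε, hε, hσε⟩, hd⟩ := hc σ hσ
  obtain ⟨h1, h2⟩ := supp_Sd_single k hk σ δ hd τ hτσ
  refine ⟨⟨ε, hε, fun i => ?_⟩, h2⟩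
  have hsub : Set.range σ ⊆ Oct ε := by
    rintro _ ⟨i, rfl⟩
    exact hσε i
  exact convexHull_min hsub (Oct_convex ε) (h1 i)

/-- basis vectors -/
def bv (k : ℕ) : Fin (N + 1) → ℝ := fun j => if j.val = k then 1 else 0

/-- the chains of the cross polytope -/
def cr : (k : ℕ) → Ch (Fin (N + 1) → ℝ) (k + 1)
  | 0 => cone (bv 0) (Finsupp.single Fin.elim0 1)
  | k + 1 => cone (bv (k + 1)) (cr k + act (fun x => -x) (cr k))

theorem neg_neg_fun (v : Fin (N + 1) → ℝ) : (fun x : Fin (N + 1) → ℝ => -x)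
    ((fun x : Fin (N + 1) → ℝ => -x) v) = v := neg_neg v

theorem bd_sym (k : ℕ) : bd (cr (N := N) k + act (fun x => -x) (cr k)) = 0 := by
  induction k with
  | zero =>
    rw [map_add, ← act_bd]
    have h1 : bd (cr (N := N) 0) = Finsupp.single Fin.elim0 1 := by
      rw [cr, bd_cone0]
    rw [h1, act_single]
    have h2 : (fun x : Fin (N + 1) → ℝ => -x) ∘ (Fin.elim0 : Fin 0 → (Fin (N + 1) → ℝ)) =
        Fin.elim0 := by
      funext i; exact i.elim0
    rw [h2, add_self]
  | succ k ih =>
    have h1 : bd (cr (N := N) (k + 1)) = cr k + act (fun x => -x) (cr k) := by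
      rw [cr, bd_cone, ih, map_zero, add_zero]
    rw [map_add, ← act_bd, h1, map_add, act_act _ neg_neg_fun]
    rw [add_comm (act (fun x => -x) (cr k)) (cr k), add_self]

theorem bd_cr (k : ℕ) : bd (cr (N := N) (k + 1)) = cr k + act (fun x => -x) (cr k) := by
  rw [cr, bd_cone, bd_sym, map_zero, add_zero]

theorem cr_vert (k : ℕ) : ∀ σ ∈ (cr (N := N) k).support, ∃ e : ℕ → ℝ,
    (∀ j, e j = 1 ∨ e j = -1) ∧ ∀ i, ∃ j ≤ k, σ i = e j • bv j := by
  induction k with
  | zero =>
    intro σ hσ
    rw [cr] at hσ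
    obtain ⟨τ, hτ, rfl⟩ := supp_cone _ _ _ hσ
    refine ⟨fun _ => 1, fun _ => Or.inl rfl, fun i => ⟨0, le_rfl, ?_⟩⟩
    refine Fin.cases ?_ (fun j => j.elim0) i
    simp
  | succ k ih =>
    intro σ hσ
    rw [cr] at hσ
    obtain ⟨τ, hτ, rfl⟩ := supp_cone _ _ _ hσ
    have key : ∃ e : ℕ → ℝ, (∀ j, e j = 1 ∨ e j = -1) ∧ ∀ i, ∃ j ≤ k, τ i = e j • bv j := by
      rcases supp_add _ _ _ hτ with h | h
      · exact ih τ h
      · obtain ⟨τ', hτ', rfl⟩ := supp_act _ _ _ h
        obtain ⟨e, he, h1⟩ := ih τ' hτ'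
        refine ⟨fun j => - e j, fun j => ?_, fun i => ?_⟩
        · rcases he j with h | h
          · right; show - e j = -1; rw [h]
          · left; show - e j = 1; rw [h]; norm_num
        · obtain ⟨j, hj, h2⟩ := h1 i
          refine ⟨j, hj, ?_⟩
          simp only [Function.comp_apply]
          rw [h2, neg_smul]
    obtain ⟨e, he, h1⟩ := key
    refine ⟨fun j => if j = k + 1 then 1 else e j, fun j => ?_, fun i => ?_⟩
    · by_cases h : j = k + 1
      · left; simp [h]
      · simp only [h, if_false]; exact he j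
    · refine Fin.cases ?_ (fun i => ?_) i
      · exact ⟨k + 1, le_rfl, by simp⟩
      · obtain ⟨j, hj, h2⟩ := h1 i
        refine ⟨j, by omega, ?_⟩
        have h3 : j ≠ k + 1 := by omega
        simp only [Fin.cons_succ, h3, if_false]
        exact h2

theorem cr_good (k : ℕ) (hk : k ≤ N) : GoodCh (N := N) 2 (cr k) := by
  intro σ hσ
  obtain ⟨e, he, h1⟩ := cr_vert k σ hσ
  have hO : ∀ i, σ i ∈ Oct (fun j : Fin (N + 1) => e j.val) := by
    intro i
    obtain ⟨j0, hj0, h2⟩ := h1 i
    have hval : ∀ j : Fin (N + 1), e j.val * σ i j = if j.val = j0 then 1 else 0 := by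
      intro j
      rw [h2]
      simp only [Pi.smul_apply, smul_eq_mul, bv]
      by_cases hj : j.val = j0
      · simp only [hj, if_true, mul_one]
        rcases he j0 with h | h <;> rw [h] <;> norm_num
      · simp [hj]
    constructor
    · intro j
      show 0 ≤ e j.val * σ i j
      rw [hval]
      split_ifs <;> norm_num
    · show ∑ j : Fin (N + 1), e j.val * σ i j = 1
      simp_rw [hval]
      rw [Finset.sum_eq_single (⟨j0, by omega⟩ : Fin (N + 1))]
      · simp
      · intro j _ hj
        have : j.val ≠ j0 := fun h => hj (Fin.ext h)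
        simp [this]
      · intro h; exact absurd (Finset.mem_univ _) h
  have hsum : ∀ i, ∑ j, |σ i j| = 1 := fun i => Oct_sum _ (fun j => he _) _ (hO i)
  have habs : ∀ i j, |σ i j| ≤ 1 := fun i j => by
    rw [← hsum i]
    exact Finset.single_le_sum (f := fun j => |σ i j|) (fun _ _ => abs_nonneg _)
      (Finset.mem_univ j)
  refine ⟨⟨_, fun j => he _, hO⟩, fun i i' => ?_⟩
  rw [dist_pi_le_iff (by norm_num)]
  intro j
  rw [Real.dist_eq]
  have h3 := abs_sub (σ i j) (σ i' j)
  have h4 := habs i j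
  have h5 := habs i' j
  linarith

/-- iterated subdivision -/
def it (M k : ℕ) : Ch (Fin (N + 1) → ℝ) (k + 1) := (Sd (k + 1))^[M] (cr k)

theorem it_succ (M k : ℕ) : it (N := N) (M + 1) k = Sd (k + 1) (it M k) := by
  unfold it
  rw [Function.iterate_succ_apply']

theorem it_zero (M : ℕ) : it (N := N) M 0 = Finsupp.single (fun _ => bv 0) 1 := by
  induction M with
  | zero =>
    show cr 0 = _
    rw [cr, cone_single]
    congr 1
    funext i
    refine Fin.cases ?_ (fun j => j.elim0) i
    simp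
  | succ M ih =>
    rw [it_succ, ih, Sd_single, one_smul, bd_single, one_smul, Fin.sum_univ_one]
    show cone _ (Finsupp.single _ 1) = _
    rw [cone_single]
    congr 1
    funext i
    refine Fin.cases ?_ (fun j => j.elim0) i
    simp [bary]

theorem bd_it (M k : ℕ) : bd (it (N := N) M (k + 1)) = it M k + act (fun x => -x) (it M k) := by
  induction M with
  | zero => exact bd_cr k
  | succ M ih => rw [it_succ, it_succ, bd_Sd, ih, map_add, act_Sd]

theorem it_good (M k : ℕ) (hk : k ≤ N) : GoodCh (N := N) ((N / (N + 1 : ℝ)) ^ M * 2) (it M k) := by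
  induction M with
  | zero => simpa [it] using cr_good k hk
  | succ M ih =>
    rw [it_succ, pow_succ', mul_assoc]
    exact good_Sd _ (k + 1) (by omega) _ ih

end A1b

open A1b in
theorem st_Sd : Sd_stmt := by
  intro N η hη
  have hr0 : (0 : ℝ) ≤ N / (N + 1 : ℝ) := by positivity
  have hr1 : (N : ℝ) / (N + 1 : ℝ) < 1 := by
    rw [div_lt_one (by positivity)]; linarith
  obtain ⟨M, hM⟩ := exists_pow_lt_of_lt_one (show (0 : ℝ) < η / 2 by positivity) hr1
  refine ⟨fun k => it M k, ⟨bv 0, it_zero M⟩, fun k _ => bd_it M k, fun k hk σ hσ => ?_⟩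
  obtain ⟨⟨ε, hε, h1⟩, h2⟩ := it_good M k hk σ hσ
  refine ⟨fun i => Oct_sum ε hε _ (h1 i), fun i i' => (h2 i i').trans_lt ?_⟩
  linarith

end

end Pool.Agent.Helper98.Sim
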