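import Pool.Agent.Helper98.Sim.Defs

open scoped Classical BigOperators
open Finset

namespace Pool.Agent.Helper98.Sim

noncomputable section

namespace C2

theorem layer {ι : Type} (F : Finset ι) (w : ι → ℝ) (τ : ℝ) (hτ : 0 < τ) (J p : ℕ)
    (h1 : ∀ B ∈ F, τ ≤ w B) (h2 : ∀ B ∈ F, w B < 2 ^ J * τ) :
    ∑ B ∈ F, w B ^ p ≤ ∑ j ∈ Finset.range J,
      (2 ^ (j + 1) * τ) ^ p * ((F.filter (fun B => 2 ^ j * τ ≤ w B)).card : ℝ) := by
  have key : ∀ B ∈ F, w B ^ p ≤ ∑ j ∈ Finset.range J,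
      (2 ^ (j + 1) * τ) ^ p * (if 2 ^ j * τ ≤ w B then (1 : ℝ) else 0) := by
    intro B hB
    have hx : 1 ≤ w B / τ := by rw [le_div_iff₀ hτ]; linarith [h1 B hB]
    obtain ⟨j, hj1, hj2⟩ := exists_nat_pow_near hx (one_lt_two)
    rw [le_div_iff₀ hτ] at hj1
    rw [div_lt_iff₀ hτ] at hj2
    have hjJ : j < J := by
      by_contra hc
      push Not at hc
      have h3 : (2 : ℝ) ^ J ≤ 2 ^ j := pow_le_pow_right₀ (by norm_num) hc
      have h4 := h2 B hB
      nlinarith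
    have h5 : w B ^ p ≤ (2 ^ (j + 1) * τ) ^ p :=
      pow_le_pow_left₀ (hτ.le.trans (h1 B hB)) hj2.le p
    refine h5.trans ?_
    have h6 := Finset.single_le_sum (f := fun j => (2 ^ (j + 1) * τ) ^ p *
      (if 2 ^ j * τ ≤ w B then (1 : ℝ) else 0)) (s := Finset.range J)
      (fun i _ => by positivity) (Finset.mem_range.2 hjJ)
    simp only [hj1, if_true, mul_one] at h6
    exact h6
  refine (Finset.sum_le_sum key).trans ?_
  rw [Finset.sum_comm]
  apply Finset.sum_le_sum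
  intro j _
  rw [← Finset.mul_sum, Finset.card_filter]
  push_cast
  exact le_rfl

/-! ### geometry -/

theorem par_of_cross (u z c : Fin 3 → ℝ) (hc : c ≠ 0) (hu : ∀ i j, c i * u j = c j * u i)
    (hz : ∀ i j, c i * z j = c j * z i) (i j : Fin 3) : u i * z j = u j * z i := by
  obtain ⟨k, hk⟩ : ∃ k, c k ≠ 0 := by
    by_contra h
    push Not at h
    exact hc (funext h)
  have h1 : c k * c k * (u i * z j - u j * z i) = 0 := by
    have e1 := hu k i
    have e2 := hz k j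
    have e3 := hu k j
    have e4 := hz k i
    calc c k * c k * (u i * z j - u j * z i)
        = (c k * u i) * (c k * z j) - (c k * u j) * (c k * z i) := by ring
      _ = (c i * u k) * (c j * z k) - (c j * u k) * (c i * z k) := by rw [e1, e2, e3, e4]
      _ = 0 := by ring
  rcases mul_eq_zero.1 h1 with h | h
  · exact absurd h (mul_ne_zero hk hk)
  · linarith

theorem scal_of_par (u z : Fin 3 → ℝ) (hu : u ≠ 0) (h : ∀ i j, u i * z j = u j * z i) :
    ∃ t : ℝ, z = t • u := by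
  obtain ⟨k, hk⟩ : ∃ k, u k ≠ 0 := by
    by_contra h
    push Not at h
    exact hu (funext h)
  refine ⟨z k / u k, ?_⟩
  funext i
  simp only [Pi.smul_apply, smul_eq_mul]
  field_simp
  linarith [h i k]

theorem dot3 (w x : Fin 3 → ℝ) : w ⬝ᵥ x = w 0 * x 0 + w 1 * x 1 + w 2 * x 2 := by
  simp [dotProduct, Fin.sum_univ_three]

theorem plane_unique (w w' : Fin 3 → ℝ) (δ δ' : ℝ) (hw : w ≠ 0) (hw' : w' ≠ 0)
    (p q x : Fin 3 → ℝ) (hpq : p ≠ q) (hx : ¬ ∃ t : ℝ, x = p + t • (q - p))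
    (h1 : w ⬝ᵥ p = δ) (h2 : w ⬝ᵥ q = δ) (h3 : w ⬝ᵥ x = δ)
    (h1' : w' ⬝ᵥ p = δ') (h2' : w' ⬝ᵥ q = δ') (h3' : w' ⬝ᵥ x = δ') (y : Fin 3 → ℝ) :
    w ⬝ᵥ y = δ ↔ w' ⬝ᵥ y = δ' := by
  have hu0 : q - p ≠ 0 := fun h => hpq (sub_eq_zero.1 h).symm
  have hpar : ∀ i j, w i * w' j = w j * w' i := by
    set c : Fin 3 → ℝ := ![w 1 * w' 2 - w 2 * w' 1, w 2 * w' 0 - w 0 * w' 2,
      w 0 * w' 1 - w 1 * w' 0] with hc
    by_cases hc0 : c = 0
    · have e0 := congrFun hc0 0
      have e1 := congrFun hc0 1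
      have e2 := congrFun hc0 2
      simp [hc] at e0 e1 e2
      intro i j
      fin_cases i <;> fin_cases j <;> simp <;> linarith
    · exfalso
      have orth : ∀ u : Fin 3 → ℝ, w ⬝ᵥ u = 0 → w' ⬝ᵥ u = 0 → ∀ i j, c i * u j = c j * u i := by
        intro u hu hu'
        rw [dot3] at hu hu'
        intro i j
        fin_cases i <;> fin_cases j <;> simp [hc] <;>
          first
          | linear_combination (w' 2) * hu - (w 2) * hu'
          | linear_combination (-(w' 2)) * hu + (w 2) * hu'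
          | linear_combination (w' 1) * hu - (w 1) * hu'
          | linear_combination (-(w' 1)) * hu + (w 1) * hu'
          | linear_combination (w' 0) * hu - (w 0) * hu'
          | linear_combination (-(w' 0)) * hu + (w 0) * hu'
      have ou := orth (q - p) (by rw [dotProduct_sub, h1, h2, sub_self])
        (by rw [dotProduct_sub, h1', h2', sub_self])
      have oz := orth (x - p) (by rw [dotProduct_sub, h1, h3, sub_self])
        (by rw [dotProduct_sub, h1', h3', sub_self])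
      have hpz := par_of_cross _ _ c hc0 ou oz
      obtain ⟨t, ht⟩ := scal_of_par _ _ hu0 hpz
      apply hx
      refine ⟨t, ?_⟩
      rw [← ht]
      abel
  obtain ⟨t, ht⟩ := scal_of_par w w' hw hpar
  have ht0 : t ≠ 0 := by
    rintro rfl
    rw [zero_smul] at ht
    exact hw' ht
  have hδ : δ' = t * δ := by
    rw [← h1', ht, smul_dotProduct, h1, smul_eq_mul]
  rw [ht, hδ, smul_dotProduct, smul_eq_mul]
  constructor
  · intro h; rw [h]
  · intro h; exact mul_left_cancel₀ ht0 h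

theorem planes_eq (P A B B' : Finset (Fin 3 → ℝ)) (hA : A ∈ Lines P) (hB : B ∈ Planes P)
    (hB' : B' ∈ Planes P) (hAB : A ⊆ B) (hAB' : A ⊆ B') (x : Fin 3 → ℝ) (hx : x ∈ B)
    (hx' : x ∈ B') (hxA : x ∉ A) : B = B' := by
  simp only [Lines, Planes, Finset.mem_filter, Finset.mem_powerset] at hA hB hB'
  obtain ⟨hAP, hA2, a, v, hv, hAeq⟩ := hA
  obtain ⟨hBP, -, w, δ, hw, hBeq⟩ := hB
  obtain ⟨-, -, w', δ', hw', hBeq'⟩ := hB'
  obtain ⟨p, hp, q, hq, hpq⟩ := Finset.one_lt_card.1 hA2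
  have hxP := hBP hx
  have onp : On a v p := by rw [hAeq] at hp; exact (Finset.mem_filter.1 hp).2
  have onq : On a v q := by rw [hAeq] at hq; exact (Finset.mem_filter.1 hq).2
  have hxn : ¬ ∃ t : ℝ, x = p + t • (q - p) := by
    rintro ⟨t, ht⟩
    apply hxA
    rw [hAeq, Finset.mem_filter]
    refine ⟨hxP, ?_⟩
    obtain ⟨s, hs⟩ := onp
    obtain ⟨r, hr⟩ := onq
    refine ⟨s + t * (r - s), ?_⟩
    rw [ht, hs, hr]
    module
  have mB : ∀ z ∈ B, w ⬝ᵥ z = δ := fun z hz => by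
    rw [hBeq] at hz; exact (Finset.mem_filter.1 hz).2
  have mB' : ∀ z ∈ B', w' ⬝ᵥ z = δ' := fun z hz => by
    rw [hBeq'] at hz; exact (Finset.mem_filter.1 hz).2
  have hiff := plane_unique w w' δ δ' hw hw' p q x hpq hxn (mB p (hAB hp)) (mB q (hAB hq))
    (mB x hx) (mB' p (hAB' hp)) (mB' q (hAB' hq)) (mB' x hx')
  rw [hBeq, hBeq']
  ext y
  simp only [Finset.mem_filter, hiff]

/-! ### combinatorics of the sets `W` -/

def Deg (γ : ℝ) (P B : Finset (Fin 3 → ℝ)) : Prop := ∃ A ∈ Lines P, A ⊆ B ∧ γ * B.card < A.card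

theorem dom_spec (γ : ℝ) (P B : Finset (Fin 3 → ℝ)) (h : Deg γ P B) :
    domLine γ P B ∈ Lines P ∧ domLine γ P B ⊆ B ∧ γ * B.card < (domLine γ P B).card := by
  unfold domLine
  have h' : ∃ A ∈ Lines P, A ⊆ B ∧ γ * B.card < A.card := h
  rw [dif_pos h']
  exact Classical.choose_spec h'

theorem W_le_sq (γ : ℝ) (P B : Finset (Fin 3 → ℝ)) : ((Wset γ P B).card : ℝ) ≤ (B.card : ℝ) ^ 2 := by
  have h1 : (Wset γ P B).card ≤ (B ×ˢ B).card := by
    apply Finset.card_le_card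
    intro z hz
    have := Finset.mem_of_mem_filter z hz
    rw [Finset.mem_offDiag] at this
    rw [Finset.mem_product]
    exact ⟨this.1, this.2.1⟩
  rw [Finset.card_product] at h1
  have : ((Wset γ P B).card : ℝ) ≤ ((B.card * B.card : ℕ) : ℝ) := by exact_mod_cast h1
  push_cast at this
  nlinarith

theorem W_le_deg (γ : ℝ) (P B : Finset (Fin 3 → ℝ)) :
    ((Wset γ P B).card : ℝ) ≤ 2 * B.card * (B \ domLine γ P B).card := by
  have h1 : Wset γ P B ⊆ (B \ domLine γ P B) ×ˢ B ∪ B ×ˢ (B \ domLine γ P B) := by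
    intro z hz
    unfold Wset at hz
    rw [Finset.mem_filter, Finset.mem_offDiag] at hz
    obtain ⟨⟨h1, h2, -⟩, h3⟩ := hz
    rw [Finset.mem_union, Finset.mem_product, Finset.mem_product, Finset.mem_sdiff,
      Finset.mem_sdiff]
    by_cases h4 : z.1 ∈ domLine γ P B
    · right
      exact ⟨h1, h2, fun h5 => h3 ⟨h4, h5⟩⟩
    · left
      exact ⟨⟨h1, h4⟩, h2⟩
  have h2 := (Finset.card_le_card h1).trans (Finset.card_union_le _ _)
  rw [Finset.card_product, Finset.card_product] at h2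
  have h3 : ((Wset γ P B).card : ℝ) ≤
      (((B \ domLine γ P B).card * B.card + B.card * (B \ domLine γ P B).card : ℕ) : ℝ) := by
    exact_mod_cast h2
  push_cast at h3
  linarith

/-- the sum over the degenerate planes -/
theorem deg_sum (γ : ℝ) (P : Finset (Fin 3 → ℝ)) (F : Finset (Finset (Fin 3 → ℝ)))
    (hF : ∀ B ∈ F, B ∈ Planes P ∧ Deg γ P B) (g : Finset (Fin 3 → ℝ) → ℝ) (hg : ∀ A, 0 ≤ g A) :
    ∑ B ∈ F, g (domLine γ P B) * ((B \ domLine γ P B).card : ℝ) ≤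
      P.card * ∑ A ∈ F.image (domLine γ P), g A := by
  rw [← Finset.sum_fiberwise_of_maps_to (g := domLine γ P) (t := F.image (domLine γ P))
    (fun B hB => Finset.mem_image_of_mem _ hB), Finset.mul_sum]
  apply Finset.sum_le_sum
  intro A hA
  have h1 : ∑ B ∈ F.filter (fun B => domLine γ P B = A),
      g (domLine γ P B) * ((B \ domLine γ P B).card : ℝ) =
      g A * ∑ B ∈ F.filter (fun B => domLine γ P B = A), ((B \ A).card : ℝ) := by
    rw [Finset.mul_sum]
    apply Finset.sum_congr rfl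
    intro B hB
    rw [(Finset.mem_filter.1 hB).2]
  rw [h1, mul_comm (P.card : ℝ)]
  apply mul_le_mul_of_nonneg_left _ (hg A)
  have h2 : ((F.filter (fun B => domLine γ P B = A)).biUnion (fun B => B \ A)).card =
      ∑ B ∈ F.filter (fun B => domLine γ P B = A), (B \ A).card := by
    apply Finset.card_biUnion
    intro B hB B' hB' hne
    show Disjoint (B \ A) (B' \ A)
    rw [Finset.disjoint_left]
    intro x hx hx'
    rw [Finset.mem_sdiff] at hx hx'
    rw [Finset.mem_coe, Finset.mem_filter] at hB hB'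
    have d1 := dom_spec γ P B (hF B hB.1).2
    have d2 := dom_spec γ P B' (hF B' hB'.1).2
    rw [hB.2] at d1
    rw [hB'.2] at d2
    exact hne (planes_eq P A B B' d1.1 (hF B hB.1).1 (hF B' hB'.1).1 d1.2.1 d2.2.1 x hx.1 hx'.1
      hx.2)
  have h3 : ((F.filter (fun B => domLine γ P B = A)).biUnion (fun B => B \ A)).card ≤ P.card := by
    apply Finset.card_le_card
    intro x hx
    rw [Finset.mem_biUnion] at hx
    obtain ⟨B, hB, hxB⟩ := hx
    have hBP := (hF B (Finset.mem_filter.1 hB).1).1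
    unfold Planes at hBP
    rw [Finset.mem_filter, Finset.mem_powerset] at hBP
    exact hBP.1 (Finset.mem_sdiff.1 hxB).1
  rw [h2] at h3
  exact_mod_cast h3

/-! ### counting -/

/-- the bound on rich lines for real thresholds -/
theorem lines_real (C : ℝ) (hC : 0 < C) (h : ∀ (P : Finset (Fin 3 → ℝ)) (k : ℕ), 2 ≤ k →
    (((Lines P).filter (fun A => k ≤ A.card)).card : ℝ) ≤
      C * ((P.card : ℝ) ^ 2 / (k : ℝ) ^ 3 + (P.card : ℝ) / k)) (P : Finset (Fin 3 → ℝ)) (s : ℝ)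
    (hs : 0 < s) : (((Lines P).filter (fun A => s ≤ A.card)).card : ℝ) ≤
      C * ((P.card : ℝ) ^ 2 / s ^ 3 + (P.card : ℝ) / s) := by
  set k : ℕ := max 2 ⌈s⌉₊ with hk
  have h1 := h P k (le_max_left _ _)
  have hks : s ≤ k := by
    have h2 := Nat.le_ceil s
    have h3 : (⌈s⌉₊ : ℝ) ≤ k := by exact_mod_cast le_max_right 2 ⌈s⌉₊
    linarith
  have h4 : ((Lines P).filter (fun A => s ≤ (A.card : ℝ))) ⊆
      ((Lines P).filter (fun A => k ≤ A.card)) := by
    intro A hA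
    rw [Finset.mem_filter] at hA ⊢
    refine ⟨hA.1, ?_⟩
    rw [hk]
    apply max_le
    · have := hA.1
      unfold Lines at this
      rw [Finset.mem_filter] at this
      exact this.2.1
    · exact Nat.ceil_le.2 hA.2
  have h5 : (((Lines P).filter (fun A => s ≤ (A.card : ℝ))).card : ℝ) ≤
      (((Lines P).filter (fun A => k ≤ A.card)).card : ℝ) := by
    exact_mod_cast Finset.card_le_card h4
  refine h5.trans (h1.trans ?_)
  apply mul_le_mul_of_nonneg_left _ hC.le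
  gcongr

theorem geom_sum_le (J : ℕ) : ∑ j ∈ Finset.range J, (1 / 4 : ℝ) ^ j ≤ 2 := by
  have h : ∑ j ∈ Finset.range J, (1 / 4 : ℝ) ^ j ≤ 4 / 3 - 4 / 3 * (1 / 4) ^ J := by
    induction J with
    | zero => simp
    | succ J ih => rw [Finset.sum_range_succ, pow_succ]; linarith
  have h2 : (0 : ℝ) ≤ (1 / 4) ^ J := by positivity
  linarith

/-- nondegenerate planes -/
def Nd (γ : ℝ) (P B : Finset (Fin 3 → ℝ)) : Prop := ∀ A ∈ Lines P, A ⊆ B → (A.card : ℝ) ≤ γ * B.card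

def NdBound (γ C : ℝ) : Prop := ∀ (P : Finset (Fin 3 → ℝ)) (τ : ℝ),
  1 ≤ τ →
  (((Planes P).filter (fun B => τ ≤ B.card ∧
      ∀ A ∈ Lines P, A ⊆ B → (A.card : ℝ) ≤ γ * B.card)).card : ℝ) ≤
    C * ((P.card : ℝ) ^ 3 / τ ^ 4 + (P.card : ℝ) ^ 2 / τ ^ 2)

def LnBound (C : ℝ) : Prop := ∀ (P : Finset (Fin 3 → ℝ)) (s : ℝ), 0 < s →
  (((Lines P).filter (fun A => s ≤ A.card)).card : ℝ) ≤
      C * ((P.card : ℝ) ^ 2 / s ^ 3 + (P.card : ℝ) / s)

theorem planes_sub (P B : Finset (Fin 3 → ℝ)) (hB : B ∈ Planes P) : B.card ≤ P.card := by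
  unfold Planes at hB
  rw [Finset.mem_filter, Finset.mem_powerset] at hB
  exact Finset.card_le_card hB.1

theorem lines_sub (P B : Finset (Fin 3 → ℝ)) (hB : B ∈ Lines P) : B.card ≤ P.card ∧ 2 ≤ B.card := by
  unfold Lines at hB
  rw [Finset.mem_filter, Finset.mem_powerset] at hB
  exact ⟨Finset.card_le_card hB.1, hB.2.1⟩

theorem planes_pos (P B : Finset (Fin 3 → ℝ)) (hB : B ∈ Planes P) : 1 ≤ B.card := by
  unfold Planes at hB
  rw [Finset.mem_filter] at hB
  rw [Nat.one_le_iff_ne_zero, Ne, Finset.card_eq_zero]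
  rintro rfl
  apply hB.2.1
  refine ⟨0, fun _ => 1, ?_, by simp⟩
  intro h
  have := congrFun h 0
  simp at this

theorem S1 (γ C : ℝ) (hC : 0 < C) (hN : NdBound γ C) (P : Finset (Fin 3 → ℝ)) (J : ℕ)
    (hJ : (P.card : ℝ) < 2 ^ J) (τ : ℝ) (hτ : 1 ≤ τ) (F : Finset (Finset (Fin 3 → ℝ)))
    (hF : ∀ B ∈ F, B ∈ Planes P ∧ τ ≤ B.card ∧ Nd γ P B) :
    ∑ B ∈ F, (B.card : ℝ) ^ 2 ≤
      4 * C * (2 * ((P.card : ℝ) ^ 3 / τ ^ 2) + J * (P.card : ℝ) ^ 2) := by
  have hτ0 : 0 < τ := by linarith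
  have h1 := layer F (fun B => (B.card : ℝ)) τ hτ0 J 2 (fun B hB => (hF B hB).2.1) (fun B hB => by
    have h2 : (B.card : ℝ) ≤ P.card := by exact_mod_cast planes_sub P B (hF B hB).1
    have h3 : (2 : ℝ) ^ J ≤ 2 ^ J * τ := by nlinarith [pow_pos (two_pos (α := ℝ)) J]
    linarith)
  refine h1.trans ?_
  have h4 : ∀ j ∈ Finset.range J, (2 ^ (j + 1) * τ) ^ 2 *
      ((F.filter (fun B => 2 ^ j * τ ≤ (B.card : ℝ))).card : ℝ) ≤
      4 * C * ((P.card : ℝ) ^ 3 / τ ^ 2 * (1 / 4) ^ j + (P.card : ℝ) ^ 2) := by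
    intro j _
    have h2j : (1 : ℝ) ≤ 2 ^ j := one_le_pow₀ (by norm_num)
    have h5 := hN P (2 ^ j * τ) (by nlinarith)
    have h6 : ((F.filter (fun B => 2 ^ j * τ ≤ (B.card : ℝ))).card : ℝ) ≤
        (((Planes P).filter (fun B => 2 ^ j * τ ≤ B.card ∧
          ∀ A ∈ Lines P, A ⊆ B → (A.card : ℝ) ≤ γ * B.card)).card : ℝ) := by
      have : (F.filter (fun B => 2 ^ j * τ ≤ (B.card : ℝ))) ⊆
          ((Planes P).filter (fun B => 2 ^ j * τ ≤ B.card ∧
          ∀ A ∈ Lines P, A ⊆ B → (A.card : ℝ) ≤ γ * B.card)) := by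
        intro B hB
        rw [Finset.mem_filter] at hB ⊢
        exact ⟨(hF B hB.1).1, hB.2, (hF B hB.1).2.2⟩
      exact_mod_cast Finset.card_le_card this
    have h7 := mul_le_mul_of_nonneg_left (h6.trans h5)
      (show (0 : ℝ) ≤ (2 ^ (j + 1) * τ) ^ 2 by positivity)
    refine h7.trans (le_of_eq ?_)
    have h8 : ((1 : ℝ) / 4) ^ j = 1 / (2 ^ j) ^ 2 := by
      rw [← pow_mul, mul_comm j 2, pow_mul, div_pow, one_pow]
      norm_num
    rw [h8, pow_succ]
    have h9 : (2 : ℝ) ^ j ≠ 0 := by positivity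
    field_simp
    ring
  refine (Finset.sum_le_sum h4).trans ?_
  rw [← Finset.mul_sum, Finset.sum_add_distrib, ← Finset.mul_sum, Finset.sum_const,
    Finset.card_range, nsmul_eq_mul]
  have h10 := geom_sum_le J
  have h11 : 0 ≤ (P.card : ℝ) ^ 3 / τ ^ 2 := by positivity
  apply mul_le_mul_of_nonneg_left _ (by positivity)
  nlinarith

theorem S2 (γ C : ℝ) (hC : 0 < C) (hN : NdBound γ C) (P : Finset (Fin 3 → ℝ)) (J : ℕ)
    (hJ : (P.card : ℝ) < 2 ^ J) (F : Finset (Finset (Fin 3 → ℝ)))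
    (hF : ∀ B ∈ F, B ∈ Planes P ∧ B.card ^ 2 ≤ P.card ∧ Nd γ P B) :
    ∑ B ∈ F, (B.card : ℝ) ^ 4 ≤ 32 * C * (J * (P.card : ℝ) ^ 3) := by
  have h1 := layer F (fun B => (B.card : ℝ)) 1 one_pos J 4 (fun B hB => by
    exact_mod_cast planes_pos P B (hF B hB).1) (fun B hB => by
    have h2 : (B.card : ℝ) ≤ P.card := by exact_mod_cast planes_sub P B (hF B hB).1
    linarith)
  refine h1.trans ?_
  have h4 : ∀ j ∈ Finset.range J, (2 ^ (j + 1) * 1) ^ 4 *
      ((F.filter (fun B => 2 ^ j * 1 ≤ (B.card : ℝ))).card : ℝ) ≤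
      32 * C * (P.card : ℝ) ^ 3 := by
    intro j _
    have h2j : (1 : ℝ) ≤ 2 ^ j := one_le_pow₀ (by norm_num)
    by_cases hem : (F.filter (fun B => 2 ^ j * 1 ≤ (B.card : ℝ))) = ∅
    · rw [hem]
      simp
      positivity
    obtain ⟨B0, hB0⟩ := Finset.nonempty_iff_ne_empty.2 hem
    rw [Finset.mem_filter, mul_one] at hB0
    have hjn : ((2 : ℝ) ^ j) ^ 2 ≤ P.card := by
      have h3 : ((B0.card : ℝ)) ^ 2 ≤ P.card := by exact_mod_cast (hF B0 hB0.1).2.1
      have h3' : ((2 : ℝ) ^ j) ^ 2 ≤ (B0.card : ℝ) ^ 2 := pow_le_pow_left₀ (by positivity) hB0.2 2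
      linarith
    have h5 := hN P (2 ^ j) h2j
    have h6 : ((F.filter (fun B => 2 ^ j * 1 ≤ (B.card : ℝ))).card : ℝ) ≤
        (((Planes P).filter (fun B => 2 ^ j ≤ (B.card : ℝ) ∧
          ∀ A ∈ Lines P, A ⊆ B → (A.card : ℝ) ≤ γ * B.card)).card : ℝ) := by
      have : (F.filter (fun B => 2 ^ j * 1 ≤ (B.card : ℝ))) ⊆
          ((Planes P).filter (fun B => 2 ^ j ≤ (B.card : ℝ) ∧
          ∀ A ∈ Lines P, A ⊆ B → (A.card : ℝ) ≤ γ * B.card)) := by
        intro B hB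
        rw [Finset.mem_filter, mul_one] at hB
        rw [Finset.mem_filter]
        exact ⟨(hF B hB.1).1, hB.2, (hF B hB.1).2.2⟩
      exact_mod_cast Finset.card_le_card this
    have h7 := mul_le_mul_of_nonneg_left (h6.trans h5)
      (show (0 : ℝ) ≤ (2 ^ (j + 1) * 1) ^ 4 by positivity)
    refine h7.trans ?_
    have h9 : (2 : ℝ) ^ j ≠ 0 := by positivity
    have h10 : (2 ^ (j + 1) * 1) ^ 4 * (C * ((P.card : ℝ) ^ 3 / (2 ^ j) ^ 4 +
        (P.card : ℝ) ^ 2 / (2 ^ j) ^ 2)) =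
        16 * C * ((P.card : ℝ) ^ 3 + (2 ^ j) ^ 2 * (P.card : ℝ) ^ 2) := by
      rw [pow_succ]
      field_simp
      ring
    rw [h10]
    have h11 : (2 ^ j) ^ 2 * (P.card : ℝ) ^ 2 ≤ (P.card : ℝ) * (P.card : ℝ) ^ 2 :=
      mul_le_mul_of_nonneg_right hjn (by positivity)
    nlinarith
  refine (Finset.sum_le_sum h4).trans ?_
  rw [Finset.sum_const, Finset.card_range, nsmul_eq_mul]
  apply le_of_eq
  ring

theorem S3 (C : ℝ) (hC : 0 < C) (hN : LnBound C) (P : Finset (Fin 3 → ℝ)) (J : ℕ)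
    (hJ : (P.card : ℝ) < 2 ^ J) (σ : ℝ) (hσ : 0 < σ) (F : Finset (Finset (Fin 3 → ℝ)))
    (hF : ∀ A ∈ F, A ∈ Lines P ∧ σ ≤ A.card) :
    ∑ A ∈ F, (A.card : ℝ) ≤ 2 * C * (2 * ((P.card : ℝ) ^ 2 / σ ^ 2) + J * (P.card : ℝ)) := by
  -- pass to `max σ 1`
  set s := max σ 1 with hs
  have hs1 : 1 ≤ s := le_max_right _ _
  have hs0 : 0 < s := by linarith
  have h1 := layer F (fun B => (B.card : ℝ)) s hs0 J 1 (fun B hB => by
    apply max_le (hF B hB).2
    have := (lines_sub P B (hF B hB).1).2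
    have : (2 : ℝ) ≤ B.card := by exact_mod_cast this
    linarith) (fun B hB => by
    have h2 : (B.card : ℝ) ≤ P.card := by exact_mod_cast (lines_sub P B (hF B hB).1).1
    have h3 : (2 : ℝ) ^ J ≤ 2 ^ J * s := by nlinarith [pow_pos (two_pos (α := ℝ)) J]
    linarith)
  simp only [pow_one] at h1
  refine h1.trans ?_
  have h4 : ∀ j ∈ Finset.range J, (2 ^ (j + 1) * s) *
      ((F.filter (fun B => 2 ^ j * s ≤ (B.card : ℝ))).card : ℝ) ≤
      2 * C * ((P.card : ℝ) ^ 2 / s ^ 2 * (1 / 4) ^ j + (P.card : ℝ)) := by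
    intro j _
    have h5 := hN P (2 ^ j * s) (by positivity)
    have h6 : ((F.filter (fun B => 2 ^ j * s ≤ (B.card : ℝ))).card : ℝ) ≤
        (((Lines P).filter (fun B => 2 ^ j * s ≤ B.card)).card : ℝ) := by
      have : (F.filter (fun B => 2 ^ j * s ≤ (B.card : ℝ))) ⊆
          ((Lines P).filter (fun B => 2 ^ j * s ≤ B.card)) := by
        intro B hB
        rw [Finset.mem_filter] at hB ⊢
        exact ⟨(hF B hB.1).1, hB.2⟩
      exact_mod_cast Finset.card_le_card this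
    have h7 := mul_le_mul_of_nonneg_left (h6.trans h5)
      (show (0 : ℝ) ≤ (2 ^ (j + 1) * s) by positivity)
    refine h7.trans (le_of_eq ?_)
    have h8 : ((1 : ℝ) / 4) ^ j = 1 / (2 ^ j) ^ 2 := by
      rw [← pow_mul, mul_comm j 2, pow_mul, div_pow, one_pow]
      norm_num
    rw [h8, pow_succ]
    have h9 : (2 : ℝ) ^ j ≠ 0 := by positivity
    field_simp
  refine (Finset.sum_le_sum h4).trans ?_
  rw [← Finset.mul_sum, Finset.sum_add_distrib, ← Finset.mul_sum, Finset.sum_const,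
    Finset.card_range, nsmul_eq_mul]
  have h10 := geom_sum_le J
  have h11 : (P.card : ℝ) ^ 2 / s ^ 2 ≤ (P.card : ℝ) ^ 2 / σ ^ 2 := by
    have : σ ≤ s := le_max_left _ _
    gcongr
  have h12 : 0 ≤ (P.card : ℝ) ^ 2 / s ^ 2 := by positivity
  apply mul_le_mul_of_nonneg_left _ (by positivity)
  nlinarith

theorem S4 (C : ℝ) (hC : 0 < C) (hN : LnBound C) (P : Finset (Fin 3 → ℝ)) (J : ℕ)
    (hJ : (P.card : ℝ) < 2 ^ J) (F : Finset (Finset (Fin 3 → ℝ)))
    (hF : ∀ A ∈ F, A ∈ Lines P ∧ A.card ^ 2 ≤ P.card) :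
    ∑ A ∈ F, (A.card : ℝ) ^ 3 ≤ 16 * C * (J * (P.card : ℝ) ^ 2) := by
  have h1 := layer F (fun B => (B.card : ℝ)) 1 one_pos J 3 (fun B hB => by
    have := (lines_sub P B (hF B hB).1).2
    have : (2 : ℝ) ≤ B.card := by exact_mod_cast this
    linarith) (fun B hB => by
    have h2 : (B.card : ℝ) ≤ P.card := by exact_mod_cast (lines_sub P B (hF B hB).1).1
    linarith)
  refine h1.trans ?_
  have h4 : ∀ j ∈ Finset.range J, (2 ^ (j + 1) * 1) ^ 3 *
      ((F.filter (fun B => 2 ^ j * 1 ≤ (B.card : ℝ))).card : ℝ) ≤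
      16 * C * (P.card : ℝ) ^ 2 := by
    intro j _
    have h2j : (1 : ℝ) ≤ 2 ^ j := one_le_pow₀ (by norm_num)
    by_cases hem : (F.filter (fun B => 2 ^ j * 1 ≤ (B.card : ℝ))) = ∅
    · rw [hem]
      simp
      positivity
    obtain ⟨B0, hB0⟩ := Finset.nonempty_iff_ne_empty.2 hem
    rw [Finset.mem_filter, mul_one] at hB0
    have hjn : ((2 : ℝ) ^ j) ^ 2 ≤ P.card := by
      have h3 : ((B0.card : ℝ)) ^ 2 ≤ P.card := by exact_mod_cast (hF B0 hB0.1).2
      have h3' : ((2 : ℝ) ^ j) ^ 2 ≤ (B0.card : ℝ) ^ 2 := pow_le_pow_left₀ (by positivity) hB0.2 2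
      linarith
    have h5 := hN P (2 ^ j) (by positivity)
    have h6 : ((F.filter (fun B => 2 ^ j * 1 ≤ (B.card : ℝ))).card : ℝ) ≤
        (((Lines P).filter (fun B => 2 ^ j ≤ (B.card : ℝ))).card : ℝ) := by
      have : (F.filter (fun B => 2 ^ j * 1 ≤ (B.card : ℝ))) ⊆
          ((Lines P).filter (fun B => 2 ^ j ≤ (B.card : ℝ))) := by
        intro B hB
        rw [Finset.mem_filter, mul_one] at hB
        rw [Finset.mem_filter]
        exact ⟨(hF B hB.1).1, hB.2⟩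
      exact_mod_cast Finset.card_le_card this
    have h7 := mul_le_mul_of_nonneg_left (h6.trans h5)
      (show (0 : ℝ) ≤ (2 ^ (j + 1) * 1) ^ 3 by positivity)
    refine h7.trans ?_
    have h9 : (2 : ℝ) ^ j ≠ 0 := by positivity
    have h10 : (2 ^ (j + 1) * 1) ^ 3 * (C * ((P.card : ℝ) ^ 2 / (2 ^ j) ^ 3 +
        (P.card : ℝ) / 2 ^ j)) =
        8 * C * ((P.card : ℝ) ^ 2 + (2 ^ j) ^ 2 * (P.card : ℝ)) := by
      rw [pow_succ]
      field_simp
      ring
    rw [h10]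
    have h11 : (2 ^ j) ^ 2 * (P.card : ℝ) ≤ (P.card : ℝ) * (P.card : ℝ) :=
      mul_le_mul_of_nonneg_right hjn (by positivity)
    nlinarith
  refine (Finset.sum_le_sum h4).trans ?_
  rw [Finset.sum_const, Finset.card_range, nsmul_eq_mul]
  apply le_of_eq
  ring

/-- number of dyadic scales -/
theorem exists_J (n : ℕ) (hn : 1 ≤ n) : ∃ J : ℕ, (n : ℝ) < 2 ^ J ∧
    (J : ℝ) ≤ 2 * (1 + Real.log n) := by
  refine ⟨Nat.log 2 n + 1, ?_, ?_⟩
  · exact_mod_cast Nat.lt_pow_succ_log_self (by norm_num) n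
  · have h1 : 2 ^ Nat.log 2 n ≤ n := Nat.pow_log_le_self 2 (by omega)
    have h2 : (2 : ℝ) ^ Nat.log 2 n ≤ n := by exact_mod_cast h1
    have h3 := Real.log_le_log (by positivity) h2
    rw [Real.log_pow] at h3
    have h4 := Real.log_two_gt_d9
    have h5 : (0 : ℝ) ≤ Nat.log 2 n := by positivity
    push_cast
    nlinarith

theorem main (γ C1 C2 : ℝ) (g0 : 0 < γ) (g1 : γ < 1) (c1 : 0 < C1) (c2 : 0 < C2)
    (hN : NdBound γ C1) (hL : LnBound C2) : PlaneSumsAt γ (64 * C1 + 128 * C2 / γ ^ 3) := by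
  intro P
  set C := 64 * C1 + 128 * C2 / γ ^ 3 with hC
  have hCpos : 0 < C := by positivity
  by_cases hP : P.card = 0
  · have hPl : Planes P = ∅ := by
      rw [Finset.eq_empty_iff_forall_notMem]
      intro B hB
      have h1 := planes_sub P B hB
      have h2 := planes_pos P B hB
      omega
    rw [hPl]
    simp [hP]
  have hn1 : 1 ≤ P.card := by omega
  obtain ⟨J, hJ, hJ2⟩ := exists_J P.card hn1
  set n : ℝ := (P.card : ℝ) with hn
  have hnR : (1 : ℝ) ≤ n := by rw [hn]; exact_mod_cast hn1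
  set L := Real.log n with hLdef
  have hL0 : 0 ≤ L := Real.log_nonneg hnR
  have hnotdeg : ∀ B, ¬ Deg γ P B → Nd γ P B := by
    intro B h A hA hAB
    by_contra hc
    push Not at hc
    exact h ⟨A, hA, hAB, hc⟩
  have hg3 : 1 / γ ≤ 1 / γ ^ 3 := by
    apply one_div_le_one_div_of_le (by positivity)
    have : γ ^ 3 ≤ γ ^ 1 := pow_le_pow_of_le_one g0.le g1.le (by norm_num)
    simpa using this
  constructor
  · intro τ hτ
    have hτ0 : 0 < τ := by linarith
    rw [← Finset.sum_filter_add_sum_filter_not _ (fun B => Deg γ P B)]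
    -- degenerate part
    have hdeg : ∑ B ∈ ((Planes P).filter (fun B => τ ≤ (B.card : ℝ))).filter (fun B => Deg γ P B),
        ((Wset γ P B).card : ℝ) ≤
        n * ((2 / γ) * (2 * C2 * (2 * (n ^ 2 / (γ * τ) ^ 2) + J * n))) := by
      have hF : ∀ B ∈ ((Planes P).filter (fun B => τ ≤ (B.card : ℝ))).filter
          (fun B => Deg γ P B), B ∈ Planes P ∧ Deg γ P B := by
        intro B hB
        rw [Finset.mem_filter, Finset.mem_filter] at hB
        exact ⟨hB.1.1, hB.2⟩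
      have h1 := deg_sum γ P _ hF (fun A => (2 / γ) * (A.card : ℝ)) (fun A => by positivity)
      have h2 : ∀ B ∈ ((Planes P).filter (fun B => τ ≤ (B.card : ℝ))).filter
          (fun B => Deg γ P B), ((Wset γ P B).card : ℝ) ≤
          (2 / γ) * ((domLine γ P B).card : ℝ) * ((B \ domLine γ P B).card : ℝ) := by
        intro B hB
        have h3 := (dom_spec γ P B (hF B hB).2).2.2
        have h4 : (B.card : ℝ) ≤ (domLine γ P B).card / γ := by
          rw [le_div_iff₀ g0]; linarith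
        refine (W_le_deg γ P B).trans ?_
        have h5 : 2 * (B.card : ℝ) ≤ 2 / γ * ((domLine γ P B).card : ℝ) := by
          have : 2 / γ * ((domLine γ P B).card : ℝ) = 2 * ((domLine γ P B).card / γ) := by ring
          rw [this]; linarith
        exact mul_le_mul_of_nonneg_right h5 (by positivity)
      refine (Finset.sum_le_sum h2).trans (h1.trans ?_)
      rw [← Finset.mul_sum]
      have h6 := S3 C2 c2 hL P J hJ (γ * τ) (by positivity)
        ((((Planes P).filter (fun B => τ ≤ (B.card : ℝ))).filter (fun B => Deg γ P B)).image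
          (domLine γ P)) (fun A hA => by
          rw [Finset.mem_image] at hA
          obtain ⟨B, hB, rfl⟩ := hA
          have h3 := dom_spec γ P B (hF B hB).2
          refine ⟨h3.1, ?_⟩
          rw [Finset.mem_filter, Finset.mem_filter] at hB
          have h7 := hB.1.2
          have h8 : γ * τ ≤ γ * B.card := mul_le_mul_of_nonneg_left h7 g0.le
          linarith [h3.2.2])
      apply mul_le_mul_of_nonneg_left _ (by positivity)
      exact mul_le_mul_of_nonneg_left h6 (by positivity)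
    -- nondegenerate part
    have hnd : ∑ B ∈ ((Planes P).filter (fun B => τ ≤ (B.card : ℝ))).filter
        (fun B => ¬ Deg γ P B), ((Wset γ P B).card : ℝ) ≤
        4 * C1 * (2 * (n ^ 3 / τ ^ 2) + J * n ^ 2) := by
      refine (Finset.sum_le_sum (fun B _ => W_le_sq γ P B)).trans ?_
      apply S1 γ C1 c1 hN P J hJ τ hτ
      intro B hB
      rw [Finset.mem_filter, Finset.mem_filter] at hB
      exact ⟨hB.1.1, hB.1.2, hnotdeg B hB.2⟩
    have e1 : n * ((2 / γ) * (2 * C2 * (2 * (n ^ 2 / (γ * τ) ^ 2) + J * n))) =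
        8 * C2 * (1 / γ ^ 3) * (n ^ 3 / τ ^ 2) + 4 * C2 * (1 / γ) * (J * n ^ 2) := by
      field_simp
      ring
    rw [e1] at hdeg
    have X0 : 0 ≤ n ^ 3 / τ ^ 2 := by positivity
    have Y0 : 0 ≤ n ^ 2 := by positivity
    have k1 : J * n ^ 2 ≤ 2 * (1 + L) * n ^ 2 := mul_le_mul_of_nonneg_right hJ2 Y0
    have k2 : n ^ 3 / τ ^ 2 ≤ (n ^ 3 / τ ^ 2) * (1 + L) := by nlinarith
    have k3 : 4 * C2 * (1 / γ) * (J * n ^ 2) ≤ 4 * C2 * (1 / γ ^ 3) * (2 * (1 + L) * n ^ 2) := by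
      apply mul_le_mul _ k1 (by positivity) (by positivity)
      apply mul_le_mul_of_nonneg_left hg3 (by positivity)
    have k4 : 8 * C2 * (1 / γ ^ 3) * (n ^ 3 / τ ^ 2) ≤
        8 * C2 * (1 / γ ^ 3) * ((n ^ 3 / τ ^ 2) * (1 + L)) :=
      mul_le_mul_of_nonneg_left k2 (by positivity)
    have k5 : 4 * C1 * (2 * (n ^ 3 / τ ^ 2) + J * n ^ 2) ≤
        4 * C1 * (2 * ((n ^ 3 / τ ^ 2) * (1 + L)) + 2 * (1 + L) * n ^ 2) :=
      mul_le_mul_of_nonneg_left (by linarith) (by positivity)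
    have tot := add_le_add hdeg hnd
    refine tot.trans ?_
    have e2 : C * (n ^ 3 / τ ^ 2 + n ^ 2) * (1 + L) =
        (64 * C1 + 128 * C2 * (1 / γ ^ 3)) * ((n ^ 3 / τ ^ 2) * (1 + L) + (1 + L) * n ^ 2) := by
      rw [hC]; ring
    rw [e2]
    have Z0 : 0 ≤ (n ^ 3 / τ ^ 2) * (1 + L) + (1 + L) * n ^ 2 := by positivity
    have Z1 : 8 * C2 * (1 / γ ^ 3) * ((n ^ 3 / τ ^ 2) * (1 + L)) +
        4 * C2 * (1 / γ ^ 3) * (2 * (1 + L) * n ^ 2) +
        4 * C1 * (2 * ((n ^ 3 / τ ^ 2) * (1 + L)) + 2 * (1 + L) * n ^ 2) =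
        (8 * C1 + 8 * C2 * (1 / γ ^ 3)) *
          ((n ^ 3 / τ ^ 2) * (1 + L) + (1 + L) * n ^ 2) := by ring
    have Z2 : (8 * C1 + 8 * C2 * (1 / γ ^ 3)) ≤ (64 * C1 + 128 * C2 * (1 / γ ^ 3)) := by
      have : 0 < C2 * (1 / γ ^ 3) := by positivity
      nlinarith
    have Z3 := mul_le_mul_of_nonneg_right Z2 Z0
    linarith
  · rw [← Finset.sum_filter_add_sum_filter_not _ (fun B => Deg γ P B)]
    have hdeg : ∑ B ∈ ((Planes P).filter (fun B => B.card ^ 2 ≤ P.card)).filter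
        (fun B => Deg γ P B), ((Wset γ P B).card : ℝ) ^ 2 ≤
        n * ((4 / γ ^ 3) * (16 * C2 * (J * n ^ 2))) := by
      have hF : ∀ B ∈ ((Planes P).filter (fun B => B.card ^ 2 ≤ P.card)).filter
          (fun B => Deg γ P B), B ∈ Planes P ∧ Deg γ P B := by
        intro B hB
        rw [Finset.mem_filter, Finset.mem_filter] at hB
        exact ⟨hB.1.1, hB.2⟩
      have h1 := deg_sum γ P _ hF (fun A => (4 / γ ^ 3) * (A.card : ℝ) ^ 3)
        (fun A => by positivity)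
      have h2 : ∀ B ∈ ((Planes P).filter (fun B => B.card ^ 2 ≤ P.card)).filter
          (fun B => Deg γ P B), ((Wset γ P B).card : ℝ) ^ 2 ≤
          (4 / γ ^ 3) * ((domLine γ P B).card : ℝ) ^ 3 * ((B \ domLine γ P B).card : ℝ) := by
        intro B hB
        have h3 := (dom_spec γ P B (hF B hB).2).2.2
        have h4 : (B.card : ℝ) ≤ (domLine γ P B).card / γ := by
          rw [le_div_iff₀ g0]; linarith
        have h5 := W_le_deg γ P B
        have h6 : ((B \ domLine γ P B).card : ℝ) ≤ B.card := by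
          exact_mod_cast Finset.card_le_card Finset.sdiff_subset
        have h7 : ((Wset γ P B).card : ℝ) ^ 2 ≤
            (2 * B.card * (B \ domLine γ P B).card) ^ 2 :=
          pow_le_pow_left₀ (by positivity) h5 2
        have h8 : (2 * (B.card : ℝ) * (B \ domLine γ P B).card) ^ 2 ≤
            4 * (B.card : ℝ) ^ 3 * ((B \ domLine γ P B).card : ℝ) := by
          have h9 : (0 : ℝ) ≤ 4 * (B.card : ℝ) ^ 2 * ((B \ domLine γ P B).card : ℝ) := by positivity
          nlinarith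
        have h10 : (B.card : ℝ) ^ 3 ≤ ((domLine γ P B).card / γ) ^ 3 :=
          pow_le_pow_left₀ (by positivity) h4 3
        have h11 : (4 / γ ^ 3) * ((domLine γ P B).card : ℝ) ^ 3 =
            4 * ((domLine γ P B).card / γ : ℝ) ^ 3 := by
          rw [div_pow]; ring
        rw [h11]
        have h12 : 4 * (B.card : ℝ) ^ 3 * ((B \ domLine γ P B).card : ℝ) ≤
            4 * ((domLine γ P B).card / γ : ℝ) ^ 3 * ((B \ domLine γ P B).card : ℝ) :=
          mul_le_mul_of_nonneg_right (by linarith) (by positivity)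
        linarith
      refine (Finset.sum_le_sum h2).trans (h1.trans ?_)
      rw [← Finset.mul_sum]
      have h6 := S4 C2 c2 hL P J hJ
        ((((Planes P).filter (fun B => B.card ^ 2 ≤ P.card)).filter (fun B => Deg γ P B)).image
          (domLine γ P)) (fun A hA => by
          rw [Finset.mem_image] at hA
          obtain ⟨B, hB, rfl⟩ := hA
          have h3 := dom_spec γ P B (hF B hB).2
          refine ⟨h3.1, ?_⟩
          rw [Finset.mem_filter, Finset.mem_filter] at hB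
          have h7 := hB.1.2
          have h8 := Nat.pow_le_pow_left (Finset.card_le_card h3.2.1) 2
          omega)
      apply mul_le_mul_of_nonneg_left _ (by positivity)
      exact mul_le_mul_of_nonneg_left h6 (by positivity)
    have hnd : ∑ B ∈ ((Planes P).filter (fun B => B.card ^ 2 ≤ P.card)).filter
        (fun B => ¬ Deg γ P B), ((Wset γ P B).card : ℝ) ^ 2 ≤
        32 * C1 * (J * n ^ 3) := by
      have h1 : ∀ B ∈ ((Planes P).filter (fun B => B.card ^ 2 ≤ P.card)).filter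
          (fun B => ¬ Deg γ P B), ((Wset γ P B).card : ℝ) ^ 2 ≤ (B.card : ℝ) ^ 4 := by
        intro B _
        have h2 := pow_le_pow_left₀ (by positivity) (W_le_sq γ P B) 2
        calc ((Wset γ P B).card : ℝ) ^ 2 ≤ ((B.card : ℝ) ^ 2) ^ 2 := h2
          _ = (B.card : ℝ) ^ 4 := by ring
      refine (Finset.sum_le_sum h1).trans ?_
      apply S2 γ C1 c1 hN P J hJ
      intro B hB
      rw [Finset.mem_filter, Finset.mem_filter] at hB
      exact ⟨hB.1.1, hB.1.2, hnotdeg B hB.2⟩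
    have Y0 : 0 ≤ n ^ 3 := by positivity
    have k1 : J * n ^ 3 ≤ 2 * (1 + L) * n ^ 3 := mul_le_mul_of_nonneg_right hJ2 Y0
    have e1 : n * ((4 / γ ^ 3) * (16 * C2 * (J * n ^ 2))) =
        64 * C2 * (1 / γ ^ 3) * (J * n ^ 3) := by ring
    rw [e1] at hdeg
    have k2 := mul_le_mul_of_nonneg_left k1 (show 0 ≤ 64 * C2 * (1 / γ ^ 3) by positivity)
    have k3 := mul_le_mul_of_nonneg_left k1 (show 0 ≤ 32 * C1 by positivity)
    have tot := add_le_add hdeg hnd
    refine tot.trans ?_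
    have e2 : C * n ^ 3 * (1 + L) =
        64 * C2 * (1 / γ ^ 3) * (2 * (1 + L) * n ^ 3) + 32 * C1 * (2 * (1 + L) * n ^ 3) := by
      rw [hC]; ring
    rw [e2]
    linarith

end C2

open C2 in
theorem st_PlaneSums (h1 : RichLines_stmt) (h2 : Nondeg_stmt) : PlaneSums_stmt := by
  obtain ⟨CL, hCL, hL⟩ := h1
  obtain ⟨γ, CN, g0, g1, hCN, hN⟩ := h2
  exact ⟨γ, 64 * CN + 128 * CL / γ ^ 3, g0, g1, by positivity,
    C2.main γ CN CL g0 g1 hCN hCL hN (fun P s hs => lines_real CL hCL hL P s hs)⟩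

end

end Pool.Agent.Helper98.Sim
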