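import Pool.Agent.Helper98.Sim.Defs

open scoped Classical BigOperators
open Finset

namespace Pool.Agent.Helper98.Sim

noncomputable section

/-- number of equal pairs versus number of classes -/
theorem card_sq_le_image {α β : Type} [iβ : DecidableEq β] (X : Finset α) (g : α → β) (A : ℕ)
    (hA : (X.image g).card ≤ A) :
    X.card ^ 2 ≤ A * (X.card + (X.offDiag.filter (fun z => g z.1 = g z.2)).card) := by
  have h1 : X.card = ∑ b ∈ X.image g, (X.filter (fun a => g a = b)).card :=
    Finset.card_eq_sum_card_image g X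
  have h2 : X.card ^ 2 ≤ (X.image g).card * ∑ b ∈ X.image g, (X.filter (fun a => g a = b)).card ^ 2 := by
    calc X.card ^ 2 = (∑ b ∈ X.image g, (X.filter (fun a => g a = b)).card) ^ 2 := by
            rw [← h1]
      _ ≤ _ := sq_sum_le_card_mul_sum_sq
  have h3 : ∑ b ∈ X.image g, (X.filter (fun a => g a = b)).card ^ 2 =
      ((X ×ˢ X).filter (fun z => g z.1 = g z.2)).card := by
    have : (X ×ˢ X).filter (fun z => g z.1 = g z.2) =
        (X.image g).biUnion (fun b => (X.filter (fun a => g a = b)) ×ˢ (X.filter (fun a => g a = b))) := by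
      ext ⟨a, b⟩
      simp only [mem_filter, mem_product, mem_biUnion, mem_image]
      constructor
      · rintro ⟨⟨ha, hb⟩, hab⟩
        exact ⟨g a, ⟨a, ha, rfl⟩, ⟨ha, rfl⟩, ⟨hb, hab.symm⟩⟩
      · rintro ⟨c, _, ⟨ha, hac⟩, ⟨hb, hbc⟩⟩
        exact ⟨⟨ha, hb⟩, hac.trans hbc.symm⟩
    rw [this, Finset.card_biUnion]
    · refine Finset.sum_congr rfl (fun b _ => ?_)
      rw [Finset.card_product, sq]
    · intro b _ b' _ hbb
      rw [Function.onFun, Finset.disjoint_left]
      rintro ⟨x, y⟩ hx hy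
      simp only [mem_product, mem_filter] at hx hy
      exact hbb (hx.1.2.symm.trans hy.1.2)
  have h4 : ((X ×ˢ X).filter (fun z => g z.1 = g z.2)).card =
      X.card + (X.offDiag.filter (fun z => g z.1 = g z.2)).card := by
    have : (X ×ˢ X).filter (fun z => g z.1 = g z.2) =
        X.diag ∪ X.offDiag.filter (fun z => g z.1 = g z.2) := by
      ext ⟨a, b⟩
      simp only [mem_filter, mem_product, mem_union, mem_diag, mem_offDiag]
      constructor
      · rintro ⟨⟨ha, hb⟩, hab⟩
        by_cases h : a = b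
        · exact Or.inl ⟨ha, h⟩
        · exact Or.inr ⟨⟨ha, hb, h⟩, hab⟩
      · rintro (⟨ha, rfl⟩ | ⟨⟨ha, hb, _⟩, hab⟩)
        · exact ⟨⟨ha, ha⟩, rfl⟩
        · exact ⟨⟨ha, hb⟩, hab⟩
    rw [this, Finset.card_union_of_disjoint, Finset.diag_card]
    rw [Finset.disjoint_left]
    rintro ⟨x, y⟩ hx hy
    simp only [mem_filter, mem_offDiag, mem_diag] at hx hy
    exact hy.1.2.2 hx.2
  rw [h3, h4] at h2
  exact h2.trans (Nat.mul_le_mul_right _ hA)

/-- a quadratic inequality -/
theorem quad_bound {x a b : ℝ} (hx : 0 ≤ x) (ha : 0 ≤ a) (hb : 0 ≤ b) (h : x ^ 2 ≤ a * x + b) :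
    x ≤ a + Real.sqrt b := by
  by_contra hcon
  push Not at hcon
  have hs := Real.sqrt_nonneg b
  have hsq := Real.sq_sqrt hb
  have h1 : 0 < x := lt_of_le_of_lt (add_nonneg ha hs) hcon
  have h2 : Real.sqrt b < x - a := by linarith
  have h3 : Real.sqrt b < x := by linarith
  nlinarith [mul_lt_mul_of_pos_left h2 h1, mul_le_mul_of_nonneg_right h3.le hs]

/-- sum of square roots -/
theorem sum_sqrt_le {α : Type} (E : Finset α) (y : α → ℝ) (hy : ∀ e ∈ E, 0 ≤ y e) :
    ∑ e ∈ E, Real.sqrt (y e) ≤ Real.sqrt (E.card * ∑ e ∈ E, y e) := by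
  apply Real.le_sqrt_of_sq_le
  calc (∑ e ∈ E, Real.sqrt (y e)) ^ 2 ≤ E.card * ∑ e ∈ E, Real.sqrt (y e) ^ 2 :=
        sq_sum_le_card_mul_sum_sq
    _ = E.card * ∑ e ∈ E, y e := by
        congr 1
        exact Finset.sum_congr rfl (fun e he => Real.sq_sqrt (hy e he))

/-- double counting -/
theorem card_sigma_swap {α β : Type} (E : Finset α) (F : Finset β) (R : α → β → Prop)
    [i1 : ∀ a, DecidablePred (R a)] [i2 : DecidablePred (fun z : α × β => R z.1 z.2)] :
    ∑ e ∈ E, (F.filter (R e)).card = ((E ×ˢ F).filter (fun z => R z.1 z.2)).card := by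
  rw [Finset.card_filter, Finset.sum_product]
  refine Finset.sum_congr rfl (fun e _ => ?_)
  rw [Finset.card_filter]
  exact Finset.sum_congr rfl (fun b _ => by congr)

theorem card_sigma_swap' {α β : Type} (E : Finset α) (F : Finset β) (R : α → β → Prop)
    [i1 : ∀ b, DecidablePred (fun e => R e b)] [i2 : DecidablePred (fun z : α × β => R z.1 z.2)] :
    ∑ b ∈ F, (E.filter (fun e => R e b)).card = ((E ×ˢ F).filter (fun z => R z.1 z.2)).card := by
  rw [Finset.card_filter, Finset.sum_product_right]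
  refine Finset.sum_congr rfl (fun e _ => ?_)
  rw [Finset.card_filter]
  exact Finset.sum_congr rfl (fun b _ => by congr)

end

end Pool.Agent.Helper98.Sim
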