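import Mathlib

open scoped Classical BigOperators
open Finset

namespace Pool.Agent.Helper98.Sim

noncomputable section

/-- squared Euclidean norm of a vector -/
def nsq {d : ℕ} (x : Fin d → ℝ) : ℝ := x ⬝ᵥ x

/-- `r` completes the pair `(p, q)` to a triangle with squared side ratios
`|pr|^2 = L |pq|^2`, `|qr|^2 = M |pq|^2`. -/
def Tri (L M : ℝ) (p q r : Fin 3 → ℝ) : Prop :=
  p ≠ q ∧ nsq (r - p) = L * nsq (q - p) ∧ nsq (r - q) = M * nsq (q - p)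

/-- the ratios belong to a non-degenerate triangle -/
def Good (L M : ℝ) : Prop := (1 + L - M) ^ 2 < 4 * L

/-- `x` lies on the line through `b` with direction `v` -/
def On {d : ℕ} (b v x : Fin d → ℝ) : Prop := ∃ t : ℝ, x = b + t • v

/-- `x` is equidistant from `r` and `s` -/
def Bis (r s x : Fin 3 → ℝ) : Prop := nsq (x - r) = nsq (x - s)

def bisSet (P : Finset (Fin 3 → ℝ)) (r s : Fin 3 → ℝ) : Finset (Fin 3 → ℝ) :=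
  P.filter (fun x => Bis r s x)

def Coll {d : ℕ} (B : Finset (Fin d → ℝ)) : Prop :=
  ∃ a v : Fin d → ℝ, v ≠ 0 ∧ ∀ x ∈ B, On a v x

/-- traces on `P` of the lines with at least two points of `P` -/
def Lines (P : Finset (Fin 3 → ℝ)) : Finset (Finset (Fin 3 → ℝ)) :=
  P.powerset.filter (fun A => 2 ≤ A.card ∧
    ∃ a v : Fin 3 → ℝ, v ≠ 0 ∧ A = P.filter (fun x => On a v x))

/-- traces on `P` of the planes whose trace is not collinear -/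
def Planes (P : Finset (Fin 3 → ℝ)) : Finset (Finset (Fin 3 → ℝ)) :=
  P.powerset.filter (fun B => ¬ Coll B ∧
    ∃ (w : Fin 3 → ℝ) (δ : ℝ), w ≠ 0 ∧ B = P.filter (fun x => w ⬝ᵥ x = δ))

/-- a dominating line of the plane trace `B` (or the empty set) -/
def domLine (γ : ℝ) (P B : Finset (Fin 3 → ℝ)) : Finset (Fin 3 → ℝ) :=
  if h : ∃ A ∈ Lines P, A ⊆ B ∧ γ * B.card < A.card then Classical.choose h else ∅

def Wset (γ : ℝ) (P B : Finset (Fin 3 → ℝ)) : Finset ((Fin 3 → ℝ) × (Fin 3 → ℝ)) :=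
  B.offDiag.filter (fun z => ¬ (z.1 ∈ domLine γ P B ∧ z.2 ∈ domLine γ P B))

/-! ### Statements of the modules -/

/-- chains with `ZMod 2` coefficients on tuples with `k` vertices -/
abbrev Ch (V : Type) (k : ℕ) : Type := (Fin k → V) →₀ ZMod 2

/-- boundary -/
def bd {V : Type} {k : ℕ} : Ch V (k + 1) →ₗ[ZMod 2] Ch V k :=
  Finsupp.lsum (ZMod 2) (fun σ => LinearMap.toSpanSingleton (ZMod 2) (Ch V k)
    (∑ i : Fin (k + 1), Finsupp.single (fun j => σ (i.succAbove j)) 1))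

/-- action of a map on chains -/
def act {V : Type} {k : ℕ} (T : V → V) : Ch V k →ₗ[ZMod 2] Ch V k :=
  Finsupp.lmapDomain (ZMod 2) (ZMod 2) (fun σ => T ∘ σ)

/-- A1a Fan's lemma, chain version -/
def Fan_stmt : Prop := ∀ (V : Type) (T : V → V) (l : V → ℤ) (N : ℕ) (c : ∀ k : ℕ, Ch V (k + 1)),
  (∃ v, c 0 = Finsupp.single (fun _ => v) 1) →
  (∀ k < N, bd (c (k + 1)) = c k + act T (c k)) →
  (∀ k ≤ N, ∀ σ ∈ (c k).support, ∀ i, l (σ i) ≠ 0 ∧ |l (σ i)| ≤ N ∧ l (T (σ i)) = - l (σ i)) →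
  (∀ k ≤ N, ∀ σ ∈ (c k).support, ∀ i j, l (σ i) ≠ - l (σ j)) → False

/-- A1b fine symmetric chains on the surface of the cross-polytope -/
def Sd_stmt : Prop := ∀ (N : ℕ) (η : ℝ), 0 < η → ∃ c : ∀ k : ℕ, Ch (Fin (N + 1) → ℝ) (k + 1),
  (∃ v, c 0 = Finsupp.single (fun _ => v) 1) ∧
  (∀ k < N, bd (c (k + 1)) = c k + act (fun x => -x) (c k)) ∧
  (∀ k ≤ N, ∀ σ ∈ (c k).support, (∀ i, ∑ j, |σ i j| = 1) ∧ ∀ i i', dist (σ i) (σ i') < η)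

/-- A1 Borsuk-Ulam -/
def BU_stmt : Prop := ∀ (N : ℕ) (g : (Fin (N + 1) → ℝ) → (Fin N → ℝ)), Continuous g →
  (∀ x, g (-x) = - g x) → ∃ x, ∑ i, |x i| = 1 ∧ g x = 0

/-- A2 discrete ham sandwich -/
def Ham_stmt : Prop := ∀ (X : Type) (N : ℕ) (φ : Fin (N + 1) → X → ℝ) (A : Fin N → Finset X),
  ∃ c : Fin (N + 1) → ℝ, c ≠ 0 ∧ ∀ j,
    2 * ((A j).filter (fun x => 0 < ∑ i, c i * φ i x)).card ≤ (A j).card ∧
    2 * ((A j).filter (fun x => ∑ i, c i * φ i x < 0)).card ≤ (A j).card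

/-- sign pattern of a point -/
def sgnp {d J : ℕ} (f : Fin J → MvPolynomial (Fin d) ℝ) (x : Fin d → ℝ) : Fin J → Bool :=
  fun j => decide (0 < MvPolynomial.eval x (f j))

/-- A3 polynomial partitioning -/
def Part_stmt (d : ℕ) : Prop := ∀ (i : ℕ) (P : Finset (Fin d → ℝ)),
  ∃ f : Fin (d * i) → MvPolynomial (Fin d) ℝ, (∀ j, f j ≠ 0) ∧
    ∑ j, (f j).totalDegree ≤ 2 * d ^ 2 * 2 ^ i ∧
    ∀ σ : Fin (d * i) → Bool,
      2 ^ (d * i) * (P.filter (fun x => (∀ j, MvPolynomial.eval x (f j) ≠ 0) ∧ sgnp f x = σ)).card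
        ≤ P.card

/-- B0 substitution into one variable -/
def Subst1_stmt : Prop := ∀ (d D e : ℕ) (f : MvPolynomial (Fin d) ℝ) (u : Fin d → Polynomial ℝ)
  (u0 : Polynomial ℝ), f.totalDegree ≤ D → (∀ k, (u k).natDegree ≤ e) → u0.natDegree ≤ e →
  ∃ G : Polynomial ℝ, G.natDegree ≤ e * D ∧ ∀ t : ℝ, u0.eval t ≠ 0 →
    G.eval t = (u0.eval t) ^ D * MvPolynomial.eval (fun k => (u k).eval t / u0.eval t) f

/-- B0 substitution into several variables -/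
def SubstM_stmt : Prop := ∀ (d d' D e : ℕ) (f : MvPolynomial (Fin d) ℝ)
  (u : Fin d → MvPolynomial (Fin d') ℝ)
  (u0 : MvPolynomial (Fin d') ℝ), f.totalDegree ≤ D → (∀ k, (u k).totalDegree ≤ e) →
  u0.totalDegree ≤ e →
  ∃ G : MvPolynomial (Fin d') ℝ, G.totalDegree ≤ e * D ∧
    (∀ t : Fin d' → ℝ, MvPolynomial.eval t u0 ≠ 0 →
      MvPolynomial.eval t G = (MvPolynomial.eval t u0) ^ D *
        MvPolynomial.eval (fun k => MvPolynomial.eval t (u k) / MvPolynomial.eval t u0) f) ∧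
    (0 < D → ∀ t : Fin d' → ℝ, MvPolynomial.eval t u0 = 0 → (∀ k, MvPolynomial.eval t (u k) = 0) →
      MvPolynomial.eval t G = 0)

/-- B0 number of sign patterns on a line of polynomials -/
def SignCount_stmt : Prop := ∀ (J : ℕ) (G : Fin J → Polynomial ℝ) (X : Finset ℝ),
  (∀ j, G j ≠ 0) → (∀ x ∈ X, ∀ j, (G j).eval x ≠ 0) →
  (∀ x ∈ X, ∀ y ∈ X, (∀ j, 0 < (G j).eval x ↔ 0 < (G j).eval y) → x = y) →
  X.card ≤ ∑ j, (G j).natDegree + 1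

/-- B1 circles cross few cells, and have few zeros -/
def Cross_stmt : Prop := ∀ (L M : ℝ) (p q : Fin 3 → ℝ) (J : ℕ)
  (f : Fin J → MvPolynomial (Fin 3) ℝ) (Y : Finset (Fin 3 → ℝ)), Good L M →
  (∀ r ∈ Y, Tri L M p q r) →
  ((∀ r ∈ Y, ∀ j, MvPolynomial.eval r (f j) ≠ 0) →
    (Y.image (sgnp f)).card ≤ 2 * (∑ j, (f j).totalDegree) + 2) ∧
  ((∃ r, Tri L M p q r ∧ ∀ j, MvPolynomial.eval r (f j) ≠ 0) →
    (∀ r ∈ Y, ∃ j, MvPolynomial.eval r (f j) = 0) →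
    Y.card ≤ 2 * (∑ j, (f j).totalDegree) + 1)

/-- B1' lines cross few cells, and have few zeros -/
def CrossLine_stmt (d : ℕ) : Prop := ∀ (b v : Fin d → ℝ) (J : ℕ)
  (f : Fin J → MvPolynomial (Fin d) ℝ) (Y : Finset (Fin d → ℝ)), v ≠ 0 →
  (∀ r ∈ Y, On b v r) →
  ((∀ r ∈ Y, ∀ j, MvPolynomial.eval r (f j) ≠ 0) →
    (Y.image (sgnp f)).card ≤ (∑ j, (f j).totalDegree) + 1) ∧
  ((∃ r, On b v r ∧ ∀ j, MvPolynomial.eval r (f j) ≠ 0) →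
    (∀ r ∈ Y, ∃ j, MvPolynomial.eval r (f j) = 0) →
    Y.card ≤ (∑ j, (f j).totalDegree))

/-- D1 a nonzero polynomial vanishes on at most `deg` hyperplanes -/
def HypCount_stmt (d : ℕ) : Prop := ∀ (F : MvPolynomial (Fin d) ℝ) (ι : Type) (Λ : Finset ι)
  (w : ι → Fin d → ℝ) (δ : ι → ℝ), F ≠ 0 → (∀ i ∈ Λ, w i ≠ 0) →
  (∀ i ∈ Λ, ∀ x, w i ⬝ᵥ x = δ i → MvPolynomial.eval x F = 0) →
  (∀ i ∈ Λ, ∀ j ∈ Λ, i ≠ j → ∃ x, w i ⬝ᵥ x = δ i ∧ w j ⬝ᵥ x ≠ δ j) →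
  Λ.card ≤ F.totalDegree

/-- B2, B3 Szemeredi-Trotter in dimension `d` -/
def ST_stmt (d : ℕ) : Prop := ∃ C : ℝ, 0 < C ∧ ∀ (ι : Type) (P : Finset (Fin d → ℝ))
  (Λ : Finset ι) (b v : ι → Fin d → ℝ), (∀ i ∈ Λ, v i ≠ 0) →
  (∀ i ∈ Λ, ∀ j ∈ Λ, i ≠ j → ∀ x y, On (b i) (v i) x → On (b j) (v j) x →
    On (b i) (v i) y → On (b j) (v j) y → x = y) →
  (((P ×ˢ Λ).filter (fun z => On (b z.2) (v z.2) z.1)).card : ℝ) ≤
    C * ((P.card : ℝ) ^ (2 / 3 : ℝ) * (Λ.card : ℝ) ^ (2 / 3 : ℝ) + P.card + Λ.card)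

/-- B4 number of rich lines -/
def RichLines_stmt : Prop := ∃ C : ℝ, 0 < C ∧ ∀ (P : Finset (Fin 3 → ℝ)) (k : ℕ), 2 ≤ k →
  (((Lines P).filter (fun A => k ≤ A.card)).card : ℝ) ≤
    C * ((P.card : ℝ) ^ 2 / (k : ℝ) ^ 3 + (P.card : ℝ) / k)

/-- C1a planes through a point of `P` with many directions -/
def RichDir_stmt : Prop := ∃ C : ℝ, 0 < C ∧ ∀ (P : Finset (Fin 3 → ℝ)) (a : Fin 3 → ℝ) (k : ℕ),
  a ∈ P → 2 ≤ k →
  (((Planes P).filter (fun B => a ∈ B ∧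
      k ≤ ((Lines P).filter (fun A => a ∈ A ∧ A ⊆ B)).card)).card : ℝ) ≤
    C * ((P.card : ℝ) ^ 2 / (k : ℝ) ^ 3 + (P.card : ℝ) / k)

/-- C1b Beck's theorem inside a plane -/
def Beck_stmt : Prop := ∃ γ c : ℝ, 0 < γ ∧ γ < 1 ∧ 0 < c ∧ c < 1 ∧ ∀ (P B : Finset (Fin 3 → ℝ)),
  B ∈ Planes P → (∀ A ∈ Lines P, A ⊆ B → (A.card : ℝ) ≤ γ * B.card) →
  c * B.card ≤ ((B.filter (fun a => c * (B.card : ℝ) ≤
    (((Lines P).filter (fun A => a ∈ A ∧ A ⊆ B)).card : ℝ))).card : ℝ)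

/-- C1 number of rich non-degenerate planes -/
def Nondeg_stmt : Prop := ∃ γ C : ℝ, 0 < γ ∧ γ < 1 ∧ 0 < C ∧ ∀ (P : Finset (Fin 3 → ℝ)) (τ : ℝ),
  1 ≤ τ →
  (((Planes P).filter (fun B => τ ≤ B.card ∧
      ∀ A ∈ Lines P, A ⊆ B → (A.card : ℝ) ≤ γ * B.card)).card : ℝ) ≤
    C * ((P.card : ℝ) ^ 3 / τ ^ 4 + (P.card : ℝ) ^ 2 / τ ^ 2)

/-- C2 sums over planes, with given constants -/
def PlaneSumsAt (γ C : ℝ) : Prop := ∀ (P : Finset (Fin 3 → ℝ)),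
  (∀ τ : ℝ, 1 ≤ τ →
    (∑ B ∈ (Planes P).filter (fun B => τ ≤ B.card), ((Wset γ P B).card : ℝ)) ≤
      C * ((P.card : ℝ) ^ 3 / τ ^ 2 + (P.card : ℝ) ^ 2) * (1 + Real.log P.card)) ∧
  (∑ B ∈ (Planes P).filter (fun B => B.card ^ 2 ≤ P.card), ((Wset γ P B).card : ℝ) ^ 2) ≤
      C * (P.card : ℝ) ^ 3 * (1 + Real.log P.card)

def PlaneSums_stmt : Prop := ∃ γ C : ℝ, 0 < γ ∧ γ < 1 ∧ 0 < C ∧ PlaneSumsAt γ C

/-- D2 incidences on a surface -/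
def Zero_stmt : Prop := ∀ (L M : ℝ) (P : Finset (Fin 3 → ℝ)) (f : MvPolynomial (Fin 3) ℝ),
  Good L M → f ≠ 0 →
  ((P ×ˢ P ×ˢ P).filter (fun z => Tri L M z.1 z.2.1 z.2.2 ∧
    MvPolynomial.eval z.2.2 f = 0)).card ≤ 10 * (f.totalDegree + 1) * P.card ^ 2

/-- E1 geometry of kites -/
def Kite_stmt : Prop := ∀ (L M : ℝ), Good L M →
  (∀ p q r s : Fin 3 → ℝ, Tri L M p q r → Tri L M p q s → Bis r s p ∧ Bis r s q) ∧
  (∀ (P : Finset (Fin 3 → ℝ)) (r s : Fin 3 → ℝ), r ≠ s →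
    ((bisSet P r s).offDiag.filter (fun z => Tri L M z.1 z.2 r)).card ≤ 3 * (bisSet P r s).card) ∧
  (∀ (A : Finset (Fin 3 → ℝ)) (r : Fin 3 → ℝ), Coll A →
    (A.offDiag.filter (fun z => Tri L M z.1 z.2 r)).card ≤ 2) ∧
  (∀ (P : Finset (Fin 3 → ℝ)) (r s s' : Fin 3 → ℝ), r ≠ s → r ≠ s' → bisSet P r s ∈ Planes P →
    bisSet P r s = bisSet P r s' → s = s') ∧
  (∀ (P : Finset (Fin 3 → ℝ)) (r s w : Fin 3 → ℝ) (δ : ℝ), r ≠ s → bisSet P r s ∈ Planes P →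
    w ≠ 0 → bisSet P r s = P.filter (fun x => w ⬝ᵥ x = δ) → w ⬝ᵥ r ≠ δ) ∧
  (∀ (P : Finset (Fin 3 → ℝ)) (r s : Fin 3 → ℝ), r ≠ s → bisSet P r s ∉ Planes P →
    Coll (bisSet P r s)) ∧
  (∀ (γ : ℝ) (P B : Finset (Fin 3 → ℝ)), Coll (domLine γ P B))

/-- E2 incidences of kites with a fixed symmetry plane -/
def PerPlane_stmt : Prop := ∃ C : ℝ, 0 < C ∧ ∀ (L M : ℝ) (w : Fin 3 → ℝ) (δ : ℝ)
  (R : Finset (Fin 3 → ℝ)) (E : Finset ((Fin 3 → ℝ) × (Fin 3 → ℝ))), Good L M → w ≠ 0 →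
  (∀ r ∈ R, δ < w ⬝ᵥ r) → (∀ e ∈ E, w ⬝ᵥ e.1 = δ ∧ w ⬝ᵥ e.2 = δ ∧ e.1 ≠ e.2) →
  (((R ×ˢ E).filter (fun z => Tri L M z.2.1 z.2.2 z.1)).card : ℝ) ≤
    C * ((R.card : ℝ) ^ (2 / 3 : ℝ) * (E.card : ℝ) ^ (2 / 3 : ℝ) + R.card + E.card)

/-- F1 kites with poor symmetry plane -/
def Poor_stmt : Prop := ∀ γ C : ℝ, 0 < γ → γ < 1 → 0 < C → PlaneSumsAt γ C →
  ∃ C' : ℝ, 0 < C' ∧ ∀ (L M : ℝ) (P : Finset (Fin 3 → ℝ))
    (S : Finset ((Fin 3 → ℝ) × (Fin 3 → ℝ))) (τ : ℝ), Good L M → S ⊆ P.offDiag → 1 ≤ τ →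
    (((S ×ˢ P.offDiag).filter (fun z => bisSet P z.1.1 z.1.2 ∈ Planes P ∧
      (bisSet P z.1.1 z.1.2).card ^ 2 ≤ P.card ∧ z.2 ∈ Wset γ P (bisSet P z.1.1 z.1.2) ∧
      Tri L M z.2.1 z.2.2 z.1.1)).card : ℝ) ≤
      C' * (τ * S.card + (S.card : ℝ) ^ (2 / 3 : ℝ) * P.card * (1 + Real.log P.card) +
        ((P.card : ℝ) ^ 3 / τ ^ 2 + (P.card : ℝ) ^ 2) * (1 + Real.log P.card))

/-- F main theorem in coordinates -/
def Main_stmt : Prop := ∃ C : ℝ, 0 < C ∧ ∀ (L M : ℝ) (P : Finset (Fin 3 → ℝ)), Good L M →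
  2 ≤ P.card →
  (((P ×ˢ P ×ˢ P).filter (fun z => Tri L M z.1 z.2.1 z.2.2)).card : ℝ) ≤
    C * (P.card : ℝ) ^ (19 / 9 : ℝ) * Real.log P.card

end

end Pool.Agent.Helper98.Sim
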