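import Pool.Agent.Helper98.Sim.Defs

open scoped Classical BigOperators
open Finset

namespace Pool.Agent.Helper98.Sim

namespace E2

/-- cross product -/
def cr (v w : Fin 3 → ℝ) : Fin 3 → ℝ :=
  ![v 1 * w 2 - v 2 * w 1, v 2 * w 0 - v 0 * w 2, v 0 * w 1 - v 1 * w 0]

lemma dot3 (x y : Fin 3 → ℝ) : x ⬝ᵥ y = x 0 * y 0 + x 1 * y 1 + x 2 * y 2 := by
  simp [dotProduct, Fin.sum_univ_three]

lemma cr0 (v w : Fin 3 → ℝ) : cr v w 0 = v 1 * w 2 - v 2 * w 1 := rfl
lemma cr1 (v w : Fin 3 → ℝ) : cr v w 1 = v 2 * w 0 - v 0 * w 2 := rfl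
lemma cr2 (v w : Fin 3 → ℝ) : cr v w 2 = v 0 * w 1 - v 1 * w 0 := rfl

lemma nsq3 (x : Fin 3 → ℝ) : nsq x = x 0 ^ 2 + x 1 ^ 2 + x 2 ^ 2 := by
  rw [nsq, dot3]; ring

lemma nsq_cr (v w : Fin 3 → ℝ) : nsq (cr v w) = nsq v * nsq w - (v ⬝ᵥ w) ^ 2 := by
  rw [nsq3, nsq3, nsq3, dot3, cr0, cr1, cr2]; ring

lemma cr_dot_left (v w : Fin 3 → ℝ) : cr v w ⬝ᵥ v = 0 := by
  rw [dot3, cr0, cr1, cr2]; ring

lemma cr_dot_right (v w : Fin 3 → ℝ) : cr v w ⬝ᵥ w = 0 := by
  rw [dot3, cr0, cr1, cr2]; ring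

lemma expand (x v w : Fin 3 → ℝ) : nsq (cr v w) • x =
    (x ⬝ᵥ cr v w) • cr v w + ((x ⬝ᵥ v) * nsq w - (x ⬝ᵥ w) * (v ⬝ᵥ w)) • v +
      ((x ⬝ᵥ w) * nsq v - (x ⬝ᵥ v) * (v ⬝ᵥ w)) • w := by
  ext i
  simp only [Pi.smul_apply, Pi.add_apply, smul_eq_mul]
  rw [nsq3, nsq3, nsq3, dot3 x (cr v w), dot3 x v, dot3 x w, dot3 v w, cr0, cr1, cr2]
  fin_cases i
  · simp only [Fin.zero_eta, Fin.isValue, cr0]; ring
  · simp only [Fin.mk_one, Fin.isValue, cr1]; ring
  · simp only [Fin.reduceFinMk, Fin.isValue, cr2]; ring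

lemma nsq_pos {x : Fin 3 → ℝ} (h : x ≠ 0) : 0 < nsq x := by
  have h0 : 0 ≤ nsq x := by rw [nsq3]; positivity
  rcases h0.lt_or_eq with h1 | h1
  · exact h1
  · exfalso; apply h
    rw [nsq3] at h1
    have a0 : x 0 = 0 := by nlinarith [sq_nonneg (x 0), sq_nonneg (x 1), sq_nonneg (x 2)]
    have a1 : x 1 = 0 := by nlinarith [sq_nonneg (x 0), sq_nonneg (x 1), sq_nonneg (x 2)]
    have a2 : x 2 = 0 := by nlinarith [sq_nonneg (x 0), sq_nonneg (x 1), sq_nonneg (x 2)]
    ext i; fin_cases i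
    · exact a0
    · exact a1
    · exact a2

/-- the origin of the plane -/
noncomputable def org (w : Fin 3 → ℝ) (δ : ℝ) : Fin 3 → ℝ := (δ / nsq w) • w

noncomputable def Phi (w : Fin 3 → ℝ) (δ : ℝ) (r : Fin 3 → ℝ) : Fin 3 → ℝ :=
  r - ((w ⬝ᵥ r - δ) / nsq w) • w + nsq (r - org w δ) • w

noncomputable def base (L M : ℝ) (w : Fin 3 → ℝ) (δ : ℝ) (e : (Fin 3 → ℝ) × (Fin 3 → ℝ)) :
    Fin 3 → ℝ :=
  e.1 + ((1 + L - M) / 2) • (e.2 - e.1) + (L * nsq (e.2 - e.1) +
    2 * ((1 + L - M) / 2) * ((e.2 - e.1) ⬝ᵥ (e.1 - org w δ)) + nsq (e.1 - org w δ)) • w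

noncomputable def dirn (w : Fin 3 → ℝ) (δ : ℝ) (e : (Fin 3 → ℝ) × (Fin 3 → ℝ)) : Fin 3 → ℝ :=
  cr (e.2 - e.1) w + (2 * (cr (e.2 - e.1) w ⬝ᵥ (e.1 - org w δ))) • w

lemma org_dot {w : Fin 3 → ℝ} (hw : w ≠ 0) (δ : ℝ) : w ⬝ᵥ org w δ = δ := by
  have := nsq_pos hw
  rw [org, dotProduct_smul, smul_eq_mul]
  change δ / nsq w * nsq w = δ
  field_simp

lemma phi_inj {w : Fin 3 → ℝ} (hw : w ≠ 0) (δ : ℝ) {r r' : Fin 3 → ℝ} (h : δ < w ⬝ᵥ r)
    (h' : δ < w ⬝ᵥ r') (heq : Phi w δ r = Phi w δ r') : r = r' := by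
  have hN := nsq_pos hw
  have hod := org_dot hw δ
  set o := org w δ with ho
  set a := (w ⬝ᵥ r - δ) / nsq w with ha
  set a' := (w ⬝ᵥ r' - δ) / nsq w with ha'
  have ap : 0 < a := div_pos (by linarith) hN
  have ap' : 0 < a' := div_pos (by linarith) hN
  have h1 : r - a • w + nsq (r - o) • w = r' - a' • w + nsq (r' - o) • w := heq
  have h2 : w ⬝ᵥ (r - a • w) = δ := by
    rw [dotProduct_sub, dotProduct_smul, smul_eq_mul]
    change w ⬝ᵥ r - a * nsq w = δ
    rw [ha]; field_simp; ring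
  have h2' : w ⬝ᵥ (r' - a' • w) = δ := by
    rw [dotProduct_sub, dotProduct_smul, smul_eq_mul]
    change w ⬝ᵥ r' - a' * nsq w = δ
    rw [ha']; field_simp; ring
  have h3 : nsq (r - o) = nsq (r' - o) := by
    have := congrArg (fun x => w ⬝ᵥ x) h1
    beta_reduce at this
    rw [dotProduct_add, dotProduct_add, h2, h2', dotProduct_smul, dotProduct_smul, smul_eq_mul,
      smul_eq_mul] at this
    have h4 : (nsq (r - o) - nsq (r' - o)) * nsq w = 0 := by
      change (nsq (r - o) - nsq (r' - o)) * (w ⬝ᵥ w) = 0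
      linarith
    rcases mul_eq_zero.mp h4 with h5 | h5
    · linarith
    · exact absurd h5 hN.ne'
  have h4 : r - a • w = r' - a' • w := by
    have := h1
    rw [h3] at this
    exact add_right_cancel this
  -- nsq (r - o) = nsq (r - a w - o) + a^2 nsq w
  have key : ∀ (x : Fin 3 → ℝ) (b : ℝ), w ⬝ᵥ (x - b • w) = δ →
      nsq (x - o) = nsq (x - b • w - o) + b ^ 2 * nsq w := by
    intro x b hx
    have e1 : w ⬝ᵥ (x - b • w - o) = 0 := by rw [dotProduct_sub, hx, hod]; ring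
    have e2 : x - o = (x - b • w - o) + b • w := by abel
    rw [e2]
    generalize x - b • w - o = y at e1
    rw [dot3] at e1
    rw [nsq3, nsq3, nsq3]
    simp only [Pi.add_apply, Pi.smul_apply, smul_eq_mul]
    linear_combination (2 * b) * e1
  have k1 := key r a h2
  have k2 := key r' a' h2'
  rw [h4] at k1
  have h5 : a ^ 2 * nsq w = a' ^ 2 * nsq w := by linarith
  have h6 : a ^ 2 = a' ^ 2 := mul_right_cancel₀ hN.ne' h5
  have h7 : a = a' := by nlinarith
  rw [h7] at h4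
  have := congrArg (fun x => x + a' • w) h4
  simpa using this

lemma on_line {L M : ℝ} {w : Fin 3 → ℝ} (hw : w ≠ 0) (δ : ℝ) {p q r : Fin 3 → ℝ}
    (hp : w ⬝ᵥ p = δ) (hq : w ⬝ᵥ q = δ) (h : Tri L M p q r) :
    On (base L M w δ (p, q)) (dirn w δ (p, q)) (Phi w δ r) := by
  obtain ⟨hpq, h1, h2⟩ := h
  have hN := nsq_pos hw
  have hod := org_dot hw δ
  set o := org w δ with ho
  set v := q - p with hv
  have hv0 : v ≠ 0 := by rw [hv]; exact sub_ne_zero.mpr (Ne.symm hpq)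
  have hvN := nsq_pos hv0
  have hvw : v ⬝ᵥ w = 0 := by
    rw [hv, sub_dotProduct, dotProduct_comm q w, dotProduct_comm p w, hp, hq]; ring
  set u := cr v w with hu
  have hun : nsq u = nsq v * nsq w := by rw [hu, nsq_cr, hvw]; ring
  set a := (w ⬝ᵥ r - δ) / nsq w with ha
  set x := r - p - a • w with hx
  have hxw : x ⬝ᵥ w = 0 := by
    rw [hx, sub_dotProduct, sub_dotProduct, smul_dotProduct, smul_eq_mul, dotProduct_comm r w,
      dotProduct_comm p w, hp]
    change w ⬝ᵥ r - δ - a * nsq w = 0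
    rw [ha]; field_simp; ring
  have hxv : x ⬝ᵥ v = ((1 + L - M) / 2) * nsq v := by
    have e1 : x ⬝ᵥ v = (r - p) ⬝ᵥ v := by
      rw [hx, sub_dotProduct, smul_dotProduct, dotProduct_comm w v, hvw]; simp
    rw [e1]
    have e2 : r - q = (r - p) - v := by rw [hv]; abel
    rw [e2] at h2
    generalize r - p = y at h1 h2
    rw [nsq3, nsq3] at h1 h2
    simp only [Pi.sub_apply] at h2
    rw [dot3, nsq3]
    linear_combination (1 / 2) * h1 - (1 / 2) * h2
  have hex := expand x v w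
  rw [hxw, hvw, ← hu, hun, hxv] at hex
  -- x = t u + κ v
  set κ := (1 + L - M) / 2 with hκ
  set t := (x ⬝ᵥ u) / (nsq v * nsq w) with ht
  have hvw' : nsq v * nsq w ≠ 0 := (mul_pos hvN hN).ne'
  have hxe : x = t • u + κ • v := by
    have e1 : x = (nsq v * nsq w)⁻¹ • ((nsq v * nsq w) • x) := by
      rw [smul_smul, inv_mul_cancel₀ hvw', one_smul]
    rw [e1, hex]
    ext i
    simp only [Pi.smul_apply, Pi.add_apply, smul_eq_mul]
    rw [ht]
    field_simp
    ring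
  have hpo : w ⬝ᵥ (p - o) = 0 := by rw [dotProduct_sub, hp, hod]; ring
  have hro : nsq (r - o) = L * nsq v + 2 * κ * (v ⬝ᵥ (p - o)) + nsq (p - o) +
      2 * t * (u ⬝ᵥ (p - o)) := by
    have e1 : r - o = (r - p) + (p - o) := by abel
    have e2 : (r - p) ⬝ᵥ (p - o) = t * (u ⬝ᵥ (p - o)) + κ * (v ⬝ᵥ (p - o)) := by
      have e3 : r - p = x + a • w := by rw [hx]; abel
      rw [e3, hxe, add_dotProduct, add_dotProduct, smul_dotProduct, smul_dotProduct,
        smul_dotProduct, hpo]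
      simp
    have e4 : nsq ((r - p) + (p - o)) = nsq (r - p) + 2 * ((r - p) ⬝ᵥ (p - o)) + nsq (p - o) := by
      rw [nsq, nsq, nsq, add_dotProduct, dotProduct_add, dotProduct_add,
        dotProduct_comm (p - o) (r - p)]
      ring
    rw [e1, e4, e2, h1]
    ring
  refine ⟨t, ?_⟩
  have e5 : Phi w δ r = p + x + nsq (r - o) • w := by
    rw [Phi, ← ho, ← ha, hx]
    congr 1
    abel
  rw [e5, hro, hxe, base, dirn, ← ho]
  simp only [← hv, ← hu, ← hκ]
  ext i
  simp only [Pi.smul_apply, Pi.add_apply, smul_eq_mul]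
  ring

lemma dirn_ne {w : Fin 3 → ℝ} (hw : w ≠ 0) (δ : ℝ) {p q : Fin 3 → ℝ}
    (hp : w ⬝ᵥ p = δ) (hq : w ⬝ᵥ q = δ) (hpq : p ≠ q) : dirn w δ (p, q) ≠ 0 := by
  have hN := nsq_pos hw
  have hv0 : q - p ≠ 0 := sub_ne_zero.mpr (Ne.symm hpq)
  have hvN := nsq_pos hv0
  have hvw : (q - p) ⬝ᵥ w = 0 := by
    rw [sub_dotProduct, dotProduct_comm q w, dotProduct_comm p w, hp, hq]; ring
  intro h
  rw [dirn] at h
  have h1 := congrArg (fun x => x ⬝ᵥ cr (q - p) w) h
  beta_reduce at h1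
  rw [add_dotProduct, smul_dotProduct, dotProduct_comm w, cr_dot_right] at h1
  simp only [smul_zero, add_zero, zero_dotProduct] at h1
  change nsq (cr (q - p) w) = 0 at h1
  rw [nsq_cr, hvw] at h1
  have := mul_pos hvN hN
  linarith

lemma two_common {L M : ℝ} (hG : Good L M) {w : Fin 3 → ℝ} (hw : w ≠ 0) (δ : ℝ)
    {p q p' q' : Fin 3 → ℝ}
    (hp : w ⬝ᵥ p = δ) (hq : w ⬝ᵥ q = δ) (hpq : p ≠ q)
    (hp' : w ⬝ᵥ p' = δ) (hq' : w ⬝ᵥ q' = δ) (hpq' : p' ≠ q')
    {x y : Fin 3 → ℝ} (hxy : x ≠ y)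
    (h1 : On (base L M w δ (p, q)) (dirn w δ (p, q)) x)
    (h2 : On (base L M w δ (p', q')) (dirn w δ (p', q')) x)
    (h3 : On (base L M w δ (p, q)) (dirn w δ (p, q)) y)
    (h4 : On (base L M w δ (p', q')) (dirn w δ (p', q')) y) :
    (p = p' ∧ q = q') ∨ q' - p' = - (q - p) := by
  have hN := nsq_pos hw
  have hod := org_dot hw δ
  set o := org w δ with ho
  set v := q - p with hv
  set v' := q' - p' with hv'
  have hv0 : v ≠ 0 := by rw [hv]; exact sub_ne_zero.mpr (Ne.symm hpq)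
  have hvN := nsq_pos hv0
  have hv0' : v' ≠ 0 := by rw [hv']; exact sub_ne_zero.mpr (Ne.symm hpq')
  have hvN' := nsq_pos hv0'
  have hvw : v ⬝ᵥ w = 0 := by
    rw [hv, sub_dotProduct, dotProduct_comm q w, dotProduct_comm p w, hp, hq]; ring
  have hvw' : v' ⬝ᵥ w = 0 := by
    rw [hv', sub_dotProduct, dotProduct_comm q' w, dotProduct_comm p' w, hp', hq']; ring
  set u := cr v w with hu
  set u' := cr v' w with hu'
  have hun : nsq u = nsq v * nsq w := by rw [hu, nsq_cr, hvw]; ring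
  have hun' : nsq u' = nsq v' * nsq w := by rw [hu', nsq_cr, hvw']; ring
  have huw : u ⬝ᵥ w = 0 := cr_dot_right v w
  have huw' : u' ⬝ᵥ w = 0 := cr_dot_right v' w
  have huv : u ⬝ᵥ v = 0 := cr_dot_left v w
  have huv' : u' ⬝ᵥ v' = 0 := cr_dot_left v' w
  obtain ⟨s, hs⟩ := h1
  obtain ⟨t, ht⟩ := h2
  obtain ⟨s', hs'⟩ := h3
  obtain ⟨t', ht'⟩ := h4
  set κ := (1 + L - M) / 2 with hκ
  set D := 2 * (u ⬝ᵥ (p - o)) with hD
  set D' := 2 * (u' ⬝ᵥ (p' - o)) with hD'
  set A := L * nsq v + 2 * κ * (v ⬝ᵥ (p - o)) + nsq (p - o) with hA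
  set A' := L * nsq v' + 2 * κ * (v' ⬝ᵥ (p' - o)) + nsq (p' - o) with hA'
  have hb : base L M w δ (p, q) = p + κ • v + A • w := rfl
  have hb' : base L M w δ (p', q') = p' + κ • v' + A' • w := rfl
  have hd : dirn w δ (p, q) = u + D • w := rfl
  have hd' : dirn w δ (p', q') = u' + D' • w := rfl
  rw [hb, hd] at hs hs'
  rw [hb', hd'] at ht ht'
  -- a vector orthogonal to w plus multiple of w
  have split : ∀ (a : Fin 3 → ℝ) (c : ℝ), a ⬝ᵥ w = 0 → a + c • w = 0 → a = 0 ∧ c = 0 := by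
    intro a c ha hac
    have e1 := congrArg (fun z => z ⬝ᵥ w) hac
    beta_reduce at e1
    rw [add_dotProduct, smul_dotProduct, ha, zero_dotProduct, zero_add, smul_eq_mul] at e1
    have e2 : c = 0 := by
      rcases mul_eq_zero.mp e1 with h | h
      · exact h
      · exact absurd h hN.ne'
    refine ⟨?_, e2⟩
    rw [e2] at hac
    simpa using hac
  have hts : t - t' ≠ 0 := by
    intro h
    have : t = t' := by linarith
    apply hxy
    rw [ht, ht', this]
  set lam := (s - s') / (t - t') with hlam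
  have hdd : (u' - lam • u) + (D' - lam * D) • w = 0 := by
    have e1 : (s - s') • (u + D • w) = (t - t') • (u' + D' • w) := by
      have e2 : x - y = (s - s') • (u + D • w) := by
        rw [hs, hs']; ext i; simp only [Pi.smul_apply, Pi.add_apply, Pi.sub_apply, smul_eq_mul]
        ring
      have e3 : x - y = (t - t') • (u' + D' • w) := by
        rw [ht, ht']; ext i; simp only [Pi.smul_apply, Pi.add_apply, Pi.sub_apply, smul_eq_mul]
        ring
      rw [← e2, e3]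
    ext i
    have e4 := congrFun e1 i
    simp only [Pi.smul_apply, Pi.add_apply, Pi.sub_apply, smul_eq_mul, Pi.zero_apply] at e4 ⊢
    rw [hlam]
    field_simp
    linear_combination -e4
  obtain ⟨hu1, hD1⟩ := split _ _ (by rw [sub_dotProduct, smul_dotProduct, huw, huw']; simp) hdd
  have hu2 : u' = lam • u := by rw [← sub_eq_zero]; exact hu1
  have hlam0 : lam ≠ 0 := by
    intro h
    rw [h, zero_smul] at hu2
    rw [hu2] at hun'
    have : nsq (0 : Fin 3 → ℝ) = 0 := by simp [nsq]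
    rw [this] at hun'
    have := mul_pos hvN' hN
    linarith
  have hpp : (p' - p) ⬝ᵥ u = 0 := by
    have e1 : D' = lam * D := by linarith
    rw [hD', hD, hu2, smul_dotProduct, smul_eq_mul] at e1
    have e2 : lam * (u ⬝ᵥ (p' - o) - u ⬝ᵥ (p - o)) = 0 := by linarith
    rcases mul_eq_zero.mp e2 with h | h
    · exact absurd h hlam0
    · rw [← dotProduct_sub] at h
      rw [dotProduct_comm]
      have e3 : p' - o - (p - o) = p' - p := by abel
      rw [e3] at h; exact h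
  have par : ∀ z : Fin 3 → ℝ, z ⬝ᵥ w = 0 → z ⬝ᵥ u = 0 → ∃ m : ℝ, z = m • v := by
    intro z hz1 hz2
    have e1 := expand z v w
    rw [← hu, hz2, hz1, hvw, hun] at e1
    have hne : nsq v * nsq w ≠ 0 := (mul_pos hvN hN).ne'
    refine ⟨(nsq v * nsq w)⁻¹ * ((z ⬝ᵥ v) * nsq w), ?_⟩
    ext i
    have e4 := congrFun e1 i
    simp only [Pi.smul_apply, Pi.add_apply, smul_eq_mul] at e4 ⊢
    rw [mul_assoc, eq_inv_mul_iff_mul_eq₀ hne, e4]
    ring
  obtain ⟨mu, hmu⟩ := par (p' - p) (by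
    rw [sub_dotProduct, dotProduct_comm p' w, dotProduct_comm p w, hp, hp']; ring) hpp
  obtain ⟨nu, hnu⟩ := par v' hvw' (by
    have e1 : v' ⬝ᵥ u' = 0 := by rw [dotProduct_comm]; exact huv'
    rw [hu2, dotProduct_smul, smul_eq_mul] at e1
    rcases mul_eq_zero.mp e1 with h | h
    · exact absurd h hlam0
    · exact h)
  have hp2 : p' = p + mu • v := by rw [← hmu]; abel
  -- base equation
  set sig := s - t * lam with hsig
  have hbb : ((mu + κ * nu - κ) • v - sig • u) + (A' - A - sig * D) • w = 0 := by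
    have e1 : p + κ • v + A • w + s • (u + D • w) = p' + κ • v' + A' • w + t • (u' + D' • w) := by
      rw [← hs, ← ht]
    have e5 : D' = lam * D := by linarith
    rw [hp2, hnu, hu2, e5] at e1
    ext i
    have e4 := congrFun e1 i
    simp only [Pi.smul_apply, Pi.add_apply, Pi.sub_apply, smul_eq_mul, Pi.zero_apply] at e4 ⊢
    rw [hsig]
    linear_combination -e4
  obtain ⟨hb1, hb2⟩ := split _ _ (by
    rw [sub_dotProduct, smul_dotProduct, smul_dotProduct, hvw, huw]; simp) hbb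
  have hb3 : mu + κ * nu - κ = 0 := by
    have e1 := congrArg (fun z => z ⬝ᵥ v) hb1
    beta_reduce at e1
    rw [sub_dotProduct, smul_dotProduct, smul_dotProduct, huv, zero_dotProduct, smul_zero,
      sub_zero, smul_eq_mul] at e1
    rcases mul_eq_zero.mp e1 with h | h
    · exact h
    · exact absurd h hvN.ne'
  have hsig0 : sig = 0 := by
    rw [hb3, zero_smul, zero_sub, neg_eq_zero] at hb1
    by_contra hne
    have : u = 0 := by
      rcases smul_eq_zero.mp hb1 with h | h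
      · exact absurd h hne
      · exact h
    rw [this] at hun
    have h0 : nsq (0 : Fin 3 → ℝ) = 0 := by simp [nsq]
    rw [h0] at hun
    have := mul_pos hvN hN
    linarith
  have hAA : A' = A := by rw [hsig0] at hb2; linarith
  have hnu2 : (nu ^ 2 - 1) * ((L - κ ^ 2) * nsq v) = 0 := by
    have e1 : p' - o = (p - o) + mu • v := by rw [hp2]; abel
    have e2 : nsq v' = nu ^ 2 * nsq v := by
      rw [hnu, nsq, smul_dotProduct, dotProduct_smul, smul_eq_mul, smul_eq_mul, nsq]; ring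
    have e3 : v' ⬝ᵥ (p' - o) = nu * (v ⬝ᵥ (p - o)) + nu * mu * nsq v := by
      rw [e1, hnu, smul_dotProduct, dotProduct_add, dotProduct_smul, smul_eq_mul, smul_eq_mul, nsq]
      ring
    have e4 : nsq (p' - o) = nsq (p - o) + 2 * mu * (v ⬝ᵥ (p - o)) + mu ^ 2 * nsq v := by
      rw [e1, nsq, add_dotProduct, dotProduct_add, dotProduct_add, smul_dotProduct,
        dotProduct_smul, smul_dotProduct, dotProduct_smul, dotProduct_comm (p - o) v]
      simp only [smul_eq_mul]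
      rw [nsq, nsq]; ring
    rw [hA', hA, e2, e3, e4] at hAA
    have hmu2 : mu = κ - κ * nu := by linarith
    rw [hmu2] at hAA
    linear_combination hAA
  have hLk : 0 < L - κ ^ 2 := by
    unfold Good at hG
    rw [hκ]; nlinarith
  have hnu3 : nu ^ 2 - 1 = 0 := by
    rcases mul_eq_zero.mp hnu2 with h | h
    · exact h
    · exact absurd h (mul_pos hLk hvN).ne'
  have hnu4 : (nu - 1) * (nu + 1) = 0 := by linarith
  rcases mul_eq_zero.mp hnu4 with h | h
  · left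
    have hn1 : nu = 1 := by linarith
    have hm0 : mu = 0 := by rw [hn1] at hb3; linarith
    rw [hn1, one_smul] at hnu
    rw [hm0, zero_smul, add_zero] at hp2
    refine ⟨hp2.symm, ?_⟩
    have : q' - p' = q - p := hnu
    rw [hp2] at this
    exact (sub_left_injective this).symm
  · right
    have hn1 : nu = -1 := by linarith
    rw [hn1, neg_one_smul] at hnu
    exact hnu

/-- positive vectors -/
def Ps (v : Fin 3 → ℝ) : Prop := 0 < v 0 ∨ (v 0 = 0 ∧ (0 < v 1 ∨ (v 1 = 0 ∧ 0 < v 2)))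

lemma ps_or {v : Fin 3 → ℝ} (h : v ≠ 0) : Ps v ∨ Ps (-v) := by
  unfold Ps
  simp only [Pi.neg_apply]
  rcases lt_trichotomy (v 0) 0 with h0 | h0 | h0
  · right; left; linarith
  · rcases lt_trichotomy (v 1) 0 with h1 | h1 | h1
    · right; right; exact ⟨by linarith, Or.inl (by linarith)⟩
    · rcases lt_trichotomy (v 2) 0 with h2 | h2 | h2
      · right; right; exact ⟨by linarith, Or.inr ⟨by linarith, by linarith⟩⟩
      · exfalso; apply h; ext i; fin_cases i
        · exact h0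
        · exact h1
        · exact h2
      · left; right; exact ⟨h0, Or.inr ⟨h1, h2⟩⟩
    · left; right; exact ⟨h0, Or.inl h1⟩
  · left; left; exact h0

lemma ps_not {v : Fin 3 → ℝ} (h : Ps v) : ¬ Ps (-v) := by
  unfold Ps at h ⊢
  simp only [Pi.neg_apply]
  rintro (h1 | ⟨h1, h2 | ⟨h2, h3⟩⟩)
  · rcases h with h | ⟨h, _⟩ <;> linarith
  · rcases h with h | ⟨h, h' | ⟨h', _⟩⟩ <;> linarith
  · rcases h with h | ⟨h, h' | ⟨h', h''⟩⟩ <;> linarith

end E2

open E2 in
theorem st_E2 : ST_stmt 3 → PerPlane_stmt := by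
  rintro ⟨C, hC, hST⟩
  refine ⟨2 * C, by positivity, ?_⟩
  intro L M w δ R E hG hw hR hE
  have half : ∀ E' : Finset ((Fin 3 → ℝ) × (Fin 3 → ℝ)), E' ⊆ E →
      (∀ e ∈ E', ∀ e' ∈ E', ¬ (e'.2 - e'.1 = - (e.2 - e.1))) →
      (((R ×ˢ E').filter (fun z => Tri L M z.2.1 z.2.2 z.1)).card : ℝ) ≤
        C * ((R.card : ℝ) ^ (2 / 3 : ℝ) * (E'.card : ℝ) ^ (2 / 3 : ℝ) + R.card + E'.card) := by
    intro E' hsub hno
    have hinj : Set.InjOn (Phi w δ) (R : Set (Fin 3 → ℝ)) := by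
      intro r hr r' hr' h
      exact phi_inj hw δ (hR r hr) (hR r' hr') h
    have h1 := hST ((Fin 3 → ℝ) × (Fin 3 → ℝ)) (R.image (Phi w δ)) E'
      (fun e => base L M w δ e) (fun e => dirn w δ e) (by
        intro e he
        obtain ⟨a, b, c⟩ := hE e (hsub he)
        exact dirn_ne hw δ a b c) (by
        intro e he e' he' hne x y hx hx' hy hy'
        by_contra hxy
        obtain ⟨a, b, c⟩ := hE e (hsub he)
        obtain ⟨a', b', c'⟩ := hE e' (hsub he')
        rcases two_common hG hw δ a b c a' b' c' hxy hx hx' hy hy' with h | h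
        · exact hne (Prod.ext h.1 h.2)
        · exact hno e he e' he' h)
    rw [Finset.card_image_of_injOn hinj] at h1
    refine le_trans ?_ h1
    norm_cast
    apply Finset.card_le_card_of_injOn (fun z => (Phi w δ z.1, z.2))
    · intro z hz
      simp only [Finset.coe_filter, Finset.mem_product, Set.mem_ofPred_eq] at hz ⊢
      obtain ⟨⟨hz1, hz2⟩, hz3⟩ := hz
      obtain ⟨a, b, c⟩ := hE z.2 (hsub hz2)
      exact ⟨⟨Finset.mem_image_of_mem _ hz1, hz2⟩, on_line hw δ a b hz3⟩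
    · intro z hz z' hz' h
      simp only [Finset.coe_filter, Finset.mem_product, Set.mem_ofPred_eq] at hz hz'
      simp only [Prod.mk.injEq] at h
      exact Prod.ext (hinj hz.1.1 hz'.1.1 h.1) h.2
  set E1 := E.filter (fun e => Ps (e.2 - e.1)) with hE1
  set E2 := E.filter (fun e => ¬ Ps (e.2 - e.1)) with hE2
  have b1 := half E1 (Finset.filter_subset _ _) (by
    intro e he e' he' h
    rw [hE1, Finset.mem_filter] at he he'
    have := ps_not he.2
    rw [← h] at this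
    exact this he'.2)
  have b2 := half E2 (Finset.filter_subset _ _) (by
    intro e he e' he' h
    rw [hE2, Finset.mem_filter] at he he'
    obtain ⟨a, b, c⟩ := hE e he.1
    rcases ps_or (sub_ne_zero.mpr (Ne.symm c)) with h1 | h1
    · exact he.2 h1
    · rw [← h] at h1
      exact he'.2 h1)
  have hcard : ((R ×ˢ E).filter (fun z => Tri L M z.2.1 z.2.2 z.1)).card ≤
      ((R ×ˢ E1).filter (fun z => Tri L M z.2.1 z.2.2 z.1)).card +
      ((R ×ˢ E2).filter (fun z => Tri L M z.2.1 z.2.2 z.1)).card := by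
    rw [← Finset.card_union_add_card_inter]
    refine le_trans (Finset.card_le_card ?_) (Nat.le_add_right _ _)
    intro z hz
    simp only [Finset.mem_filter, Finset.mem_product, Finset.mem_union, hE1, hE2] at hz ⊢
    by_cases h : Ps (z.2.2 - z.2.1)
    · left; exact ⟨⟨hz.1.1, hz.1.2, h⟩, hz.2⟩
    · right; exact ⟨⟨hz.1.1, hz.1.2, h⟩, hz.2⟩
  have mono : ∀ E' : Finset ((Fin 3 → ℝ) × (Fin 3 → ℝ)), E' ⊆ E →
      C * ((R.card : ℝ) ^ (2 / 3 : ℝ) * (E'.card : ℝ) ^ (2 / 3 : ℝ) + R.card + E'.card) ≤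
      C * ((R.card : ℝ) ^ (2 / 3 : ℝ) * (E.card : ℝ) ^ (2 / 3 : ℝ) + R.card + E.card) := by
    intro E' hsub
    have hc : (E'.card : ℝ) ≤ E.card := by exact_mod_cast Finset.card_le_card hsub
    have hc2 : (E'.card : ℝ) ^ (2 / 3 : ℝ) ≤ (E.card : ℝ) ^ (2 / 3 : ℝ) :=
      Real.rpow_le_rpow (by positivity) hc (by norm_num)
    gcongr
  have m1 := mono E1 (Finset.filter_subset _ _)
  have m2 := mono E2 (Finset.filter_subset _ _)
  have hcard' : (((R ×ˢ E).filter (fun z => Tri L M z.2.1 z.2.2 z.1)).card : ℝ) ≤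
      (((R ×ˢ E1).filter (fun z => Tri L M z.2.1 z.2.2 z.1)).card : ℝ) +
      (((R ×ˢ E2).filter (fun z => Tri L M z.2.1 z.2.2 z.1)).card : ℝ) := by exact_mod_cast hcard
  linarith

end Pool.Agent.Helper98.Sim
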