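import Pool.Agent.Helper98.Sim.Defs

open scoped Classical BigOperators
open Finset

namespace Pool.Agent.Helper98.Sim

namespace F1

lemma holder {ι : Type*} (T : Finset ι) (s w : ι → ℝ) (hs : ∀ B ∈ T, 0 ≤ s B)
    (hw : ∀ B ∈ T, 0 ≤ w B) :
    ∑ B ∈ T, ((s B) ^ (2 / 3 : ℝ) * (w B) ^ (2 / 3 : ℝ)) ≤
      (∑ B ∈ T, (s B)) ^ (2 / 3 : ℝ) * (∑ B ∈ T, (w B) ^ 2) ^ (1 / 3 : ℝ) := by
  have hpq : (3 / 2 : ℝ).HolderConjugate 3 := by
    rw [Real.holderConjugate_iff]; norm_num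
  have h := Real.inner_le_Lp_mul_Lq_of_nonneg T hpq
    (f := fun B => (s B) ^ (2 / 3 : ℝ)) (g := fun B => (w B) ^ (2 / 3 : ℝ))
    (fun B hB => Real.rpow_nonneg (hs B hB) _) (fun B hB => Real.rpow_nonneg (hw B hB) _)
  have e1 : ∑ B ∈ T, ((s B) ^ (2 / 3 : ℝ)) ^ (3 / 2 : ℝ) = ∑ B ∈ T, s B := by
    apply Finset.sum_congr rfl
    intro B hB
    rw [← Real.rpow_mul (hs B hB)]
    norm_num
  have e2 : ∑ B ∈ T, ((w B) ^ (2 / 3 : ℝ)) ^ (3 : ℝ) = ∑ B ∈ T, (w B) ^ 2 := by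
    apply Finset.sum_congr rfl
    intro B hB
    rw [← Real.rpow_mul (hw B hB)]
    norm_num
  rw [e1, e2] at h
  have e3 : (1 : ℝ) / (3 / 2) = 2 / 3 := by norm_num
  rw [e3] at h
  exact h

end F1

open F1 in
theorem st_F1 : PerPlane_stmt → Kite_stmt → Poor_stmt := by
  rintro ⟨C0, hC0, hPP⟩ hKite γ C hγ hγ1 hC hPS
  refine ⟨3 + 2 * C0 * (1 + C ^ (1 / 3 : ℝ) + C), by positivity, ?_⟩
  intro L M P S τ hG hS hτ
  obtain ⟨k1, k2, k3, k4, k5, k6, k7⟩ := hKite L M hG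
  obtain ⟨ps1, ps2⟩ := hPS P
  set n : ℝ := (P.card : ℝ) with hn
  have hn0 : 0 ≤ n := by positivity
  have hlog : 0 ≤ Real.log n := Real.log_natCast_nonneg _
  set K := (S ×ˢ P.offDiag).filter (fun z => bisSet P z.1.1 z.1.2 ∈ Planes P ∧
      (bisSet P z.1.1 z.1.2).card ^ 2 ≤ P.card ∧ z.2 ∈ Wset γ P (bisSet P z.1.1 z.1.2) ∧
      Tri L M z.2.1 z.2.2 z.1.1) with hK
  have hne : ∀ e ∈ S, e.1 ≠ e.2 := by
    intro e he
    exact (Finset.mem_offDiag.mp (hS he)).2.2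
  set K1 := K.filter (fun z => ((bisSet P z.1.1 z.1.2).card : ℝ) < τ) with hK1
  set K2 := K.filter (fun z => ¬ ((bisSet P z.1.1 z.1.2).card : ℝ) < τ) with hK2
  have hsplit : (K.card : ℝ) = K1.card + K2.card := by
    rw [hK1, hK2]
    exact_mod_cast (Finset.card_filter_add_card_filter_not _).symm
  -- first part
  have hb1 : (K1.card : ℝ) ≤ 3 * τ * S.card := by
    have hmap : Set.MapsTo (fun z : (((Fin 3 → ℝ) × (Fin 3 → ℝ)) × ((Fin 3 → ℝ) × (Fin 3 → ℝ))) => z.1) (K1 : Set _) (S : Set _) := by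
      intro z hz
      simp only [hK1, hK, Finset.coe_filter, Finset.mem_filter, Finset.mem_product,
        Set.mem_ofPred_eq] at hz
      exact hz.1.1.1
    rw [Finset.card_eq_sum_card_fiberwise hmap]
    push_cast
    have : ∀ e ∈ S, (((K1.filter (fun z => z.1 = e)).card : ℕ) : ℝ) ≤ 3 * τ := by
      intro e he
      by_cases hemp : (K1.filter (fun z => z.1 = e)) = ∅
      · rw [hemp]; simp; linarith
      · obtain ⟨z0, hz0⟩ := Finset.nonempty_iff_ne_empty.mpr hemp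
        simp only [hK1, hK, Finset.mem_filter, Finset.mem_product] at hz0
        have hlt : ((bisSet P e.1 e.2).card : ℝ) < τ := by
          rw [← hz0.2]; exact hz0.1.2
        have h3 := k2 P e.1 e.2 (hne e he)
        have h4 : (K1.filter (fun z => z.1 = e)).card ≤
            ((bisSet P e.1 e.2).offDiag.filter (fun z => Tri L M z.1 z.2 e.1)).card := by
          apply Finset.card_le_card_of_injOn (fun z => z.2)
          · intro z hz
            simp only [hK1, hK, Finset.coe_filter, Finset.mem_filter, Finset.mem_product,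
              Set.mem_ofPred_eq] at hz
            simp only [Finset.coe_filter, Set.mem_ofPred_eq]
            obtain ⟨⟨⟨⟨a1, a2⟩, a3, a4, a5, a6⟩, a7⟩, a8⟩ := hz
            rw [a8] at a5 a6
            exact ⟨(Finset.mem_filter.mp a5).1, a6⟩
          · intro z hz z' hz' h
            simp only [Finset.coe_filter, Set.mem_ofPred_eq] at hz hz'
            exact Prod.ext (hz.2.trans hz'.2.symm) h
        have h5 : (((K1.filter (fun z => z.1 = e)).card : ℕ) : ℝ) ≤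
            3 * ((bisSet P e.1 e.2).card : ℝ) := by exact_mod_cast h4.trans h3
        linarith
    calc ∑ e ∈ S, (((K1.filter (fun z => z.1 = e)).card : ℕ) : ℝ) ≤ ∑ e ∈ S, 3 * τ :=
          Finset.sum_le_sum this
      _ = 3 * τ * S.card := by rw [Finset.sum_const, nsmul_eq_mul]; ring
  -- second part
  set T := (Planes P).filter (fun B => τ ≤ (B.card : ℝ) ∧ B.card ^ 2 ≤ P.card) with hT
  set SB : Finset (Fin 3 → ℝ) → Finset ((Fin 3 → ℝ) × (Fin 3 → ℝ)) :=
    fun B => S.filter (fun e => bisSet P e.1 e.2 = B) with hSB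
  have hb2 : (K2.card : ℝ) ≤ ∑ B ∈ T, 2 * C0 * (((SB B).card : ℝ) ^ (2 / 3 : ℝ) *
      ((Wset γ P B).card : ℝ) ^ (2 / 3 : ℝ) + (SB B).card + (Wset γ P B).card) := by
    have hmap : Set.MapsTo (fun z : (((Fin 3 → ℝ) × (Fin 3 → ℝ)) × ((Fin 3 → ℝ) × (Fin 3 → ℝ))) =>
        bisSet P z.1.1 z.1.2) (K2 : Set _) (T : Set _) := by
      intro z hz
      simp only [hK2, hK, Finset.coe_filter, Finset.mem_filter, Finset.mem_product,
        Set.mem_ofPred_eq, not_lt] at hz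
      simp only [hT, Finset.coe_filter, Set.mem_ofPred_eq]
      exact ⟨hz.1.2.1, hz.2, hz.1.2.2.1⟩
    rw [Finset.card_eq_sum_card_fiberwise hmap]
    push_cast
    apply Finset.sum_le_sum
    intro B hB
    obtain ⟨hBP, hBτ, hB2⟩ := Finset.mem_filter.mp hB
    obtain ⟨hBpow, hnc, w, δ, hw, hBw⟩ := Finset.mem_filter.mp hBP
    set RB := (SB B).image Prod.fst with hRB
    have hRBc : RB.card ≤ (SB B).card := Finset.card_image_le
    set Rp := RB.filter (fun r => δ < w ⬝ᵥ r) with hRp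
    set Rm := RB.filter (fun r => w ⬝ᵥ r < δ) with hRm
    have hWm : ∀ e ∈ Wset γ P B, w ⬝ᵥ e.1 = δ ∧ w ⬝ᵥ e.2 = δ ∧ e.1 ≠ e.2 := by
      intro e he
      have h1 := (Finset.mem_filter.mp he).1
      obtain ⟨h2, h3, h4⟩ := Finset.mem_offDiag.mp h1
      rw [hBw] at h2 h3
      exact ⟨(Finset.mem_filter.mp h2).2, (Finset.mem_filter.mp h3).2, h4⟩
    have p1 := hPP L M w δ Rp (Wset γ P B) hG hw (by
      intro r hr; exact (Finset.mem_filter.mp hr).2) hWm
    have p2 := hPP L M (-w) (-δ) Rm (Wset γ P B) hG (neg_ne_zero.mpr hw) (by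
      intro r hr
      rw [neg_dotProduct]
      have := (Finset.mem_filter.mp hr).2
      linarith) (by
      intro e he
      obtain ⟨a, b, c⟩ := hWm e he
      rw [neg_dotProduct, neg_dotProduct, a, b]
      exact ⟨rfl, rfl, c⟩)
    have hcount : (K2.filter (fun z => bisSet P z.1.1 z.1.2 = B)).card ≤
        ((Rp ×ˢ Wset γ P B).filter (fun z => Tri L M z.2.1 z.2.2 z.1)).card +
        ((Rm ×ˢ Wset γ P B).filter (fun z => Tri L M z.2.1 z.2.2 z.1)).card := by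
      rw [← Finset.card_union_add_card_inter]
      refine le_trans ?_ (Nat.le_add_right _ _)
      apply Finset.card_le_card_of_injOn (fun z => (z.1.1, z.2))
      · intro z hz
        simp only [hK2, hK, Finset.coe_filter, Finset.mem_filter, Finset.mem_product,
          Set.mem_ofPred_eq, not_lt] at hz
        obtain ⟨⟨⟨⟨a1, a2⟩, a3, a4, a5, a6⟩, a7⟩, a8⟩ := hz
        rw [a8] at a5
        have hrB : z.1.1 ∈ RB := by
          rw [hRB, Finset.mem_image]
          exact ⟨z.1, Finset.mem_filter.mpr ⟨a1, a8⟩, rfl⟩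
        have hne5 : w ⬝ᵥ z.1.1 ≠ δ := k5 P z.1.1 z.1.2 w δ (hne _ a1) a3 hw (a8.trans hBw)
        simp only [Finset.coe_union, Finset.coe_filter, Finset.mem_product, Set.mem_union,
          Set.mem_ofPred_eq, hRp, hRm, Finset.mem_filter]
        rcases lt_or_gt_of_ne hne5 with h | h
        · right; exact ⟨⟨⟨hrB, h⟩, a5⟩, a6⟩
        · left; exact ⟨⟨⟨hrB, h⟩, a5⟩, a6⟩
      · intro z hz z' hz' h
        simp only [hK2, hK, Finset.coe_filter, Finset.mem_filter, Finset.mem_product,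
          Set.mem_ofPred_eq, not_lt] at hz hz'
        obtain ⟨⟨⟨⟨a1, a2⟩, a3, a4, a5, a6⟩, a7⟩, a8⟩ := hz
        obtain ⟨⟨⟨⟨a1', a2'⟩, a3', a4', a5', a6'⟩, a7'⟩, a8'⟩ := hz'
        simp only [Prod.mk.injEq] at h
        obtain ⟨h1, h2⟩ := h
        have hs : z.1.2 = z'.1.2 := by
          apply k4 P z.1.1 z.1.2 z'.1.2 (hne _ a1)
          · rw [h1]; exact hne _ a1'
          · exact a3
          · rw [a8, h1, a8']
        exact Prod.ext (Prod.ext h1 hs) h2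
    have hcount' : (((K2.filter (fun z => bisSet P z.1.1 z.1.2 = B)).card : ℕ) : ℝ) ≤
        (((Rp ×ˢ Wset γ P B).filter (fun z => Tri L M z.2.1 z.2.2 z.1)).card : ℝ) +
        (((Rm ×ˢ Wset γ P B).filter (fun z => Tri L M z.2.1 z.2.2 z.1)).card : ℝ) := by
      exact_mod_cast hcount
    have mono : ∀ R' : Finset (Fin 3 → ℝ), R' ⊆ RB →
        C0 * ((R'.card : ℝ) ^ (2 / 3 : ℝ) * ((Wset γ P B).card : ℝ) ^ (2 / 3 : ℝ) +
          R'.card + (Wset γ P B).card) ≤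
        C0 * (((SB B).card : ℝ) ^ (2 / 3 : ℝ) * ((Wset γ P B).card : ℝ) ^ (2 / 3 : ℝ) +
          (SB B).card + (Wset γ P B).card) := by
      intro R' hR'
      have hc : (R'.card : ℝ) ≤ ((SB B).card : ℝ) := by
        exact_mod_cast (Finset.card_le_card hR').trans hRBc
      have hc2 : (R'.card : ℝ) ^ (2 / 3 : ℝ) ≤ ((SB B).card : ℝ) ^ (2 / 3 : ℝ) :=
        Real.rpow_le_rpow (by positivity) hc (by norm_num)
      gcongr
    have m1 := mono Rp (Finset.filter_subset _ _)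
    have m2 := mono Rm (Finset.filter_subset _ _)
    linarith
  have hsumS : ∑ B ∈ T, ((SB B).card : ℝ) ≤ S.card := by
    have h1 : ∑ B ∈ T, (SB B).card ≤ S.card := by
      have h2 : ∑ B ∈ T, (SB B).card =
          ∑ B ∈ T, ((S.filter (fun e => bisSet P e.1 e.2 ∈ T)).filter
            (fun e => bisSet P e.1 e.2 = B)).card := by
        apply Finset.sum_congr rfl
        intro B hB
        congr 1
        ext e
        simp only [hSB, Finset.mem_filter]
        constructor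
        · rintro ⟨a, b⟩; exact ⟨⟨a, by rw [b]; exact hB⟩, b⟩
        · rintro ⟨⟨a, _⟩, b⟩; exact ⟨a, b⟩
      rw [h2, ← Finset.card_eq_sum_card_fiberwise]
      · exact Finset.card_filter_le _ _
      · intro e he
        simp only [Finset.coe_filter, Set.mem_ofPred_eq] at he
        exact he.2
    exact_mod_cast h1
  have hsumW2 : ∑ B ∈ T, ((Wset γ P B).card : ℝ) ^ 2 ≤ C * n ^ 3 * (1 + Real.log n) := by
    refine le_trans ?_ ps2
    apply Finset.sum_le_sum_of_subset_of_nonneg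
    · intro B hB
      obtain ⟨a, _, b⟩ := Finset.mem_filter.mp hB
      exact Finset.mem_filter.mpr ⟨a, b⟩
    · intro B _ _; positivity
  have hsumW : ∑ B ∈ T, ((Wset γ P B).card : ℝ) ≤
      C * (n ^ 3 / τ ^ 2 + n ^ 2) * (1 + Real.log n) := by
    refine le_trans ?_ (ps1 τ hτ)
    apply Finset.sum_le_sum_of_subset_of_nonneg
    · intro B hB
      obtain ⟨a, b, _⟩ := Finset.mem_filter.mp hB
      exact Finset.mem_filter.mpr ⟨a, b⟩
    · intro B _ _; positivity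
  have hh := holder T (fun B => ((SB B).card : ℝ)) (fun B => ((Wset γ P B).card : ℝ))
    (fun B _ => by positivity) (fun B _ => by positivity)
  have hh2 : ∑ B ∈ T, (((SB B).card : ℝ) ^ (2 / 3 : ℝ) * ((Wset γ P B).card : ℝ) ^ (2 / 3 : ℝ)) ≤
      C ^ (1 / 3 : ℝ) * ((S.card : ℝ) ^ (2 / 3 : ℝ) * n * (1 + Real.log n)) := by
    refine le_trans hh ?_
    have a1 : (∑ B ∈ T, ((SB B).card : ℝ)) ^ (2 / 3 : ℝ) ≤ (S.card : ℝ) ^ (2 / 3 : ℝ) :=
      Real.rpow_le_rpow (Finset.sum_nonneg (fun _ _ => by positivity)) hsumS (by norm_num)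
    have a2 : (∑ B ∈ T, ((Wset γ P B).card : ℝ) ^ 2) ^ (1 / 3 : ℝ) ≤
        C ^ (1 / 3 : ℝ) * n * (1 + Real.log n) := by
      have b1 : (∑ B ∈ T, ((Wset γ P B).card : ℝ) ^ 2) ^ (1 / 3 : ℝ) ≤
          (C * n ^ 3 * (1 + Real.log n)) ^ (1 / 3 : ℝ) :=
        Real.rpow_le_rpow (Finset.sum_nonneg (fun _ _ => by positivity)) hsumW2 (by norm_num)
      refine le_trans b1 ?_
      have h1l : (1 : ℝ) ≤ 1 + Real.log n := by linarith
      rw [Real.mul_rpow (by positivity) (by linarith), Real.mul_rpow hC.le (by positivity)]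
      have b2 : (n ^ 3) ^ (1 / 3 : ℝ) = n := by
        rw [← Real.rpow_natCast, ← Real.rpow_mul hn0]
        norm_num
      have b3 : (1 + Real.log n) ^ (1 / 3 : ℝ) ≤ 1 + Real.log n := by
        calc (1 + Real.log n) ^ (1 / 3 : ℝ) ≤ (1 + Real.log n) ^ (1 : ℝ) :=
              Real.rpow_le_rpow_of_exponent_le h1l (by norm_num)
          _ = 1 + Real.log n := Real.rpow_one _
      rw [b2]
      gcongr
    calc (∑ B ∈ T, ((SB B).card : ℝ)) ^ (2 / 3 : ℝ) *
          (∑ B ∈ T, ((Wset γ P B).card : ℝ) ^ 2) ^ (1 / 3 : ℝ)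
        ≤ (S.card : ℝ) ^ (2 / 3 : ℝ) * (C ^ (1 / 3 : ℝ) * n * (1 + Real.log n)) := by
          apply mul_le_mul a1 a2 (Real.rpow_nonneg (Finset.sum_nonneg (fun _ _ => by positivity)) _)
          positivity
      _ = C ^ (1 / 3 : ℝ) * ((S.card : ℝ) ^ (2 / 3 : ℝ) * n * (1 + Real.log n)) := by ring
  have hb3 : ∑ B ∈ T, 2 * C0 * (((SB B).card : ℝ) ^ (2 / 3 : ℝ) *
      ((Wset γ P B).card : ℝ) ^ (2 / 3 : ℝ) + (SB B).card + (Wset γ P B).card) ≤
      2 * C0 * (C ^ (1 / 3 : ℝ) * ((S.card : ℝ) ^ (2 / 3 : ℝ) * n * (1 + Real.log n)) +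
        S.card + C * (n ^ 3 / τ ^ 2 + n ^ 2) * (1 + Real.log n)) := by
    rw [← Finset.mul_sum, Finset.sum_add_distrib, Finset.sum_add_distrib]
    gcongr
  have hSτ : (S.card : ℝ) ≤ τ * S.card := by
    nlinarith [(by positivity : (0 : ℝ) ≤ (S.card : ℝ))]
  set X1 : ℝ := τ * S.card with hX1
  set X2 : ℝ := (S.card : ℝ) ^ (2 / 3 : ℝ) * n * (1 + Real.log n) with hX2
  set X3 : ℝ := (n ^ 3 / τ ^ 2 + n ^ 2) * (1 + Real.log n) with hX3
  have hX1n : 0 ≤ X1 := by positivity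
  have hX2n : 0 ≤ X2 := by positivity
  have hX3n : 0 ≤ X3 := by positivity
  have hCp : 0 ≤ C ^ (1 / 3 : ℝ) := by positivity
  have hfin : (K.card : ℝ) ≤ 3 * X1 + 2 * C0 * (C ^ (1 / 3 : ℝ) * X2 + X1 + C * X3) := by
    have : 2 * C0 * (C ^ (1 / 3 : ℝ) * ((S.card : ℝ) ^ (2 / 3 : ℝ) * n * (1 + Real.log n)) +
        S.card + C * (n ^ 3 / τ ^ 2 + n ^ 2) * (1 + Real.log n)) ≤
        2 * C0 * (C ^ (1 / 3 : ℝ) * X2 + X1 + C * X3) := by
      have e : C * (n ^ 3 / τ ^ 2 + n ^ 2) * (1 + Real.log n) = C * X3 := by rw [hX3]; ring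
      rw [e]
      gcongr
    rw [hsplit]
    have e : 3 * τ * (S.card : ℝ) = 3 * X1 := by rw [hX1]; ring
    linarith
  refine le_trans hfin ?_
  have t1 : 0 ≤ 2 * C0 * (C ^ (1 / 3 : ℝ) + C) * X1 := by positivity
  have t2 : 0 ≤ (3 + 2 * C0 * (1 + C)) * X2 := by positivity
  have t3 : 0 ≤ (3 + 2 * C0 * (1 + C ^ (1 / 3 : ℝ))) * X3 := by positivity
  nlinarith [t1, t2, t3]

end Pool.Agent.Helper98.Sim
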