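import Pool.Agent.Helper98.Sim.Pairs

open scoped Classical BigOperators
open Finset

namespace Pool.Agent.Helper98.Sim

noncomputable section

theorem total_le {J : ℕ} (L M : ℝ) (P : Finset V3) (f : Fin J → MvPolynomial (Fin 3) ℝ) :
    ((P ×ˢ P ×ˢ P).filter (fun z => Tri L M z.1 z.2.1 z.2.2)).card ≤
      ∑ e ∈ P.offDiag, (Xs L M P f e).card +
      ((P ×ˢ P ×ˢ P).filter (fun z => Tri L M z.1 z.2.1 z.2.2 ∧
        MvPolynomial.eval z.2.2 (∏ j, f j) = 0)).card := by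
  have h1 : ((P ×ˢ P ×ˢ P).filter (fun z => Tri L M z.1 z.2.1 z.2.2)) ⊆
      ((P ×ˢ P ×ˢ P).filter (fun z => Tri L M z.1 z.2.1 z.2.2 ∧ offZ f z.2.2)) ∪
      ((P ×ˢ P ×ˢ P).filter (fun z => Tri L M z.1 z.2.1 z.2.2 ∧
        MvPolynomial.eval z.2.2 (∏ j, f j) = 0)) := by
    intro z hz
    simp only [mem_filter, mem_union] at hz ⊢
    by_cases h : offZ f z.2.2
    · exact Or.inl ⟨hz.1, hz.2, h⟩
    · right
      refine ⟨hz.1, hz.2, ?_⟩
      unfold offZ at h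
      push Not at h
      obtain ⟨j, hj⟩ := h
      rw [map_prod]
      exact Finset.prod_eq_zero (mem_univ j) hj
  refine (Finset.card_le_card h1).trans ((Finset.card_union_le _ _).trans ?_)
  apply Nat.add_le_add_right
  unfold Xs
  rw [card_sigma_swap P.offDiag P (fun e r => Tri L M e.1 e.2 r ∧ offZ f r)]
  apply Finset.card_le_card_of_injOn (fun z => ((z.1, z.2.1), z.2.2))
  · intro z hz
    simp only [coe_filter, mem_product, Set.mem_ofPred_eq, mem_offDiag] at hz ⊢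
    obtain ⟨⟨a, b, c⟩, d, e⟩ := hz
    exact ⟨⟨⟨a, b, d.1⟩, c⟩, d, e⟩
  · intro z _ z' _ h
    simp only [Prod.mk.injEq] at h
    exact Prod.ext h.1.1 (Prod.ext h.1.2 h.2)

theorem card_Ss {J : ℕ} (P : Finset V3) (f : Fin J → MvPolynomial (Fin 3) ℝ) (m : ℕ)
    (h : ∀ σ : Fin J → Bool,
      m * (P.filter (fun x => (∀ j, MvPolynomial.eval x (f j) ≠ 0) ∧ sgnp f x = σ)).card
        ≤ P.card) :
    m * (Ss P f).card ≤ P.card * P.card := by
  have h1 : (Ss P f).card ≤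
      ∑ r ∈ P, (P.filter (fun x => (∀ j, MvPolynomial.eval x (f j) ≠ 0) ∧ sgnp f x = sgnp f r)).card := by
    rw [card_sigma_swap P P (fun r x => (∀ j, MvPolynomial.eval x (f j) ≠ 0) ∧ sgnp f x = sgnp f r)]
    apply Finset.card_le_card
    intro z hz
    simp only [Ss, mem_filter, mem_offDiag, mem_product] at hz ⊢
    obtain ⟨⟨a, b, c⟩, d, e, g⟩ := hz
    exact ⟨⟨a, b⟩, e, g.symm⟩
  calc m * (Ss P f).card ≤ m * ∑ r ∈ P, (P.filter (fun x => (∀ j, MvPolynomial.eval x (f j) ≠ 0) ∧ sgnp f x = sgnp f r)).card :=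
        Nat.mul_le_mul_left _ h1
    _ = ∑ r ∈ P, m * (P.filter (fun x => (∀ j, MvPolynomial.eval x (f j) ≠ 0) ∧ sgnp f x = sgnp f r)).card := by
        rw [Finset.mul_sum]
    _ ≤ ∑ r ∈ P, P.card := Finset.sum_le_sum (fun r _ => h _)
    _ = P.card * P.card := by rw [Finset.sum_const, smul_eq_mul]

theorem sum_Xs {J : ℕ} (γ L M : ℝ) (hG : Good L M) (P : Finset V3)
    (f : Fin J → MvPolynomial (Fin 3) ℝ) (hK : Kite_stmt) (hC : Cross_stmt) (a r k : ℝ)
    (ha : (2 * (∑ j, (f j).totalDegree) + 2 : ℝ) ≤ a) 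
    (hr : ((∑ e ∈ P.offDiag, rho γ P e : ℕ) : ℝ) ≤ r)
    (hk : ((∑ e ∈ P.offDiag, (K1 γ L M P f e).card : ℕ) : ℝ) +
      ((∑ e ∈ P.offDiag, (K3 γ L M P f e).card : ℕ) : ℝ) ≤ k) :
    ((∑ e ∈ P.offDiag, (Xs L M P f e).card : ℕ) : ℝ) ≤
      a * ((P.card : ℝ) ^ 2 + r) + Real.sqrt ((P.card : ℝ) ^ 2 * (a * k)) := by
  set D := ∑ j, (f j).totalDegree with hD
  have ha0 : 0 ≤ a := le_trans (by positivity) ha
  have hoff : ((P.offDiag.card : ℕ) : ℝ) ≤ (P.card : ℝ) ^ 2 := by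
    rw [Finset.offDiag_card]
    have : P.card * P.card - P.card ≤ P.card ^ 2 := by rw [sq]; exact Nat.sub_le _ _
    exact_mod_cast this
  have key : ∀ e ∈ P.offDiag, ((Xs L M P f e).card : ℝ) ≤ a * (1 + rho γ P e) +
      Real.sqrt (a * ((K1 γ L M P f e).card + (K3 γ L M P f e).card)) := by
    intro e he
    have hA : ((Xs L M P f e).image (sgnp f)).card ≤ 2 * D + 2 := by
      refine (hC L M e.1 e.2 J f (Xs L M P f e) hG ?_).1 ?_
      · intro r hr
        simp only [Xs, mem_filter] at hr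
        exact hr.2.1
      · intro r hr
        simp only [Xs, mem_filter] at hr
        exact hr.2.2
    have h1 := sq_card_Xs γ L M hG P f e he (2 * D + 2) hA hK
    apply quad_bound (by positivity) (by positivity) (by positivity)
    have h2 : ((Xs L M P f e).card : ℝ) ^ 2 ≤ (2 * D + 2) * ((Xs L M P f e).card + (K1 γ L M P f e).card +
      rho γ P e * (Xs L M P f e).card + (K3 γ L M P f e).card) := by exact_mod_cast h1
    refine h2.trans ?_
    have h3 : (2 * (D : ℝ) + 2) * ((Xs L M P f e).card + (K1 γ L M P f e).card +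
      rho γ P e * (Xs L M P f e).card + (K3 γ L M P f e).card) ≤ a * ((Xs L M P f e).card + (K1 γ L M P f e).card +
      rho γ P e * (Xs L M P f e).card + (K3 γ L M P f e).card) := by
      apply mul_le_mul_of_nonneg_right _ (by positivity)
      exact_mod_cast ha
    refine h3.trans (le_of_eq ?_)
    ring
  have hsum : ((∑ e ∈ P.offDiag, (Xs L M P f e).card : ℕ) : ℝ) ≤
      ∑ e ∈ P.offDiag, (a * (1 + rho γ P e) +
      Real.sqrt (a * ((K1 γ L M P f e).card + (K3 γ L M P f e).card))) := by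
    push_cast
    exact Finset.sum_le_sum key
  refine hsum.trans ?_
  rw [Finset.sum_add_distrib]
  apply add_le_add
  · rw [← Finset.mul_sum, Finset.sum_add_distrib]
    apply mul_le_mul_of_nonneg_left _ ha0
    apply add_le_add
    · simpa using hoff
    · push_cast at hr
      exact hr
  · refine (sum_sqrt_le P.offDiag _ (fun e _ => by positivity)).trans ?_
    apply Real.sqrt_le_sqrt
    rw [← Finset.mul_sum]
    have hs0 : (0 : ℝ) ≤ ∑ e ∈ P.offDiag,
        (((K1 γ L M P f e).card : ℝ) + ((K3 γ L M P f e).card : ℝ)) :=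
      Finset.sum_nonneg (fun e _ => add_nonneg (Nat.cast_nonneg _) (Nat.cast_nonneg _))
    refine mul_le_mul hoff ?_ (mul_nonneg ha0 hs0) (sq_nonneg _)
    apply mul_le_mul_of_nonneg_left _ ha0
    rw [Finset.sum_add_distrib]
    push_cast at hk
    exact hk

theorem st_Main (hPart : Part_stmt 3) (hCross : Cross_stmt) (hSums : PlaneSums_stmt)
    (hZero : Zero_stmt) (hKite : Kite_stmt) (hPoor : Poor_stmt) : Main_stmt := by
  obtain ⟨γ, C0, hγ0, hγ1, hC0, hPS⟩ := hSums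
  obtain ⟨C1, hC1, hP1⟩ := hPoor γ C0 hγ0 hγ1 hC0 hPS
  set C2 : ℝ := 16 + 14 * C1 with hC2
  refine ⟨3 * (38 * (1 + 2 * C0) + (38 * C2 + 1) + 190), by positivity, ?_⟩
  intro L M P hG hn
  set n : ℝ := (P.card : ℝ) with hnn
  have hn2 : (2 : ℝ) ≤ n := by rw [hnn]; exact_mod_cast hn
  have hn0 : 0 < n := by linarith
  set y : ℝ := n ^ (1 / 9 : ℝ) with hy
  have hy1 : 1 ≤ y := Real.one_le_rpow (by linarith) (by norm_num)
  have hy0 : 0 < y := by linarith
  have hy9 : y ^ 9 = n := by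
    rw [hy, ← Real.rpow_natCast, ← Real.rpow_mul hn0.le]
    norm_num
  have hl : 0 ≤ Real.log n := Real.log_nonneg (by linarith)
  have hl2 : 1 ≤ 2 * Real.log n := by
    have h1 : Real.log 2 ≤ Real.log n := Real.log_le_log (by norm_num) hn2
    have := Real.log_two_gt_d9
    linarith
  set l : ℝ := Real.log n with hll
  obtain ⟨i, hi1, hi2⟩ := exists_nat_pow_near hy1 (by norm_num : (1 : ℝ) < 2)
  obtain ⟨f, hf0, hdeg, hcell⟩ := hPart i P
  set D := ∑ j, (f j).totalDegree with hD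
  have hDle : (D : ℝ) ≤ 18 * y := by
    have : (D : ℝ) ≤ ((2 * 3 ^ 2 * 2 ^ i : ℕ) : ℝ) := by exact_mod_cast hdeg
    refine this.trans ?_
    push_cast
    nlinarith
  -- pairs in the same cell
  have hS : ((Ss P f).card : ℝ) ≤ 8 * y ^ 15 := by
    have h1 := card_Ss P f (2 ^ (3 * i)) hcell
    have h2 : (2 : ℝ) ^ (3 * i) * ((Ss P f).card : ℝ) ≤ n * n := by
      rw [hnn]; exact_mod_cast h1
    have h3 : y ^ 3 ≤ 8 * (2 : ℝ) ^ (3 * i) := by
      have : y ^ 3 ≤ ((2 : ℝ) ^ (i + 1)) ^ 3 := pow_le_pow_left₀ hy0.le hi2.le 3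
      calc y ^ 3 ≤ ((2 : ℝ) ^ (i + 1)) ^ 3 := this
        _ = 8 * (2 : ℝ) ^ (3 * i) := by
            rw [mul_comm 3 i, pow_mul, pow_succ]
            ring
    have h4 : y ^ 3 * ((Ss P f).card : ℝ) ≤ 8 * (n * n) := by
      calc y ^ 3 * ((Ss P f).card : ℝ) ≤ 8 * (2 : ℝ) ^ (3 * i) * ((Ss P f).card : ℝ) :=
            mul_le_mul_of_nonneg_right h3 (by positivity)
        _ = 8 * ((2 : ℝ) ^ (3 * i) * ((Ss P f).card : ℝ)) := by ring
        _ ≤ 8 * (n * n) := by linarith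
    have h5 : n * n = y ^ 3 * y ^ 15 := by rw [← hy9]; ring
    have h6 : 0 < y ^ 3 := by positivity
    nlinarith
  -- zero part
  have hF0 : (∏ j, f j) ≠ 0 := Finset.prod_ne_zero_iff.mpr (fun j _ => hf0 j)
  have hFdeg : (∏ j, f j).totalDegree ≤ D := MvPolynomial.totalDegree_finsetProd _ _
  have hTZ : (((P ×ˢ P ×ˢ P).filter (fun z => Tri L M z.1 z.2.1 z.2.2 ∧
        MvPolynomial.eval z.2.2 (∏ j, f j) = 0)).card : ℝ) ≤ 190 * y ^ 19 := by
    have h1 := hZero L M P (∏ j, f j) hG hF0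
    have h2 : (((P ×ˢ P ×ˢ P).filter (fun z => Tri L M z.1 z.2.1 z.2.2 ∧
        MvPolynomial.eval z.2.2 (∏ j, f j) = 0)).card : ℝ) ≤
        ((10 * ((∏ j, f j).totalDegree + 1) * P.card ^ 2 : ℕ) : ℝ) := by exact_mod_cast h1
    refine h2.trans ?_
    push_cast
    have h3 : ((∏ j, f j).totalDegree : ℝ) ≤ 18 * y := le_trans (by exact_mod_cast hFdeg) hDle
    have h4 : n ^ 2 = y ^ 18 := by rw [← hy9]; ring
    have h5 : 10 * (((∏ j, f j).totalDegree : ℝ) + 1) ≤ 190 * y := by linarith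
    calc 10 * (((∏ j, f j).totalDegree : ℝ) + 1) * n ^ 2 ≤ 190 * y * n ^ 2 :=
          mul_le_mul_of_nonneg_right h5 (by positivity)
      _ = 190 * y ^ 19 := by rw [h4]; ring
  -- rich planes
  have hrho : ((∑ e ∈ P.offDiag, rho γ P e : ℕ) : ℝ) ≤ 2 * C0 * y ^ 18 * (1 + l) := by
    rw [sum_rho]
    have h1 := (hPS P).1 (Real.sqrt n) (Real.one_le_sqrt.mpr (by linarith))
    have h2 : Real.sqrt n ^ 2 = n := Real.sq_sqrt hn0.le
    rw [h2] at h1
    push_cast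
    refine le_trans (Finset.sum_le_sum_of_subset_of_nonneg (t := (Planes P).filter
      (fun B => Real.sqrt n ≤ B.card)) ?_ (fun _ _ _ => by positivity)) (h1.trans ?_)
    · intro B hB
      simp only [mem_filter] at hB ⊢
      refine ⟨hB.1, ?_⟩
      apply Real.sqrt_le_iff.mpr
      refine ⟨by positivity, ?_⟩
      have : (P.card : ℝ) ≤ (B.card : ℝ) ^ 2 := by exact_mod_cast hB.2.le
      exact this
    · have h3 : n ^ 3 / n = n ^ 2 := by field_simp
      have h4 : n ^ 2 = y ^ 18 := by rw [← hy9]; ring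
      have h3' : (P.card : ℝ) ^ 3 / n + (P.card : ℝ) ^ 2 = 2 * y ^ 18 := by
        rw [← hnn, h3, h4]; ring
      rw [h3']
      apply le_of_eq
      ring
  -- kites
  have hKK : ((∑ e ∈ P.offDiag, (K1 γ L M P f e).card : ℕ) : ℝ) +
      ((∑ e ∈ P.offDiag, (K3 γ L M P f e).card : ℕ) : ℝ) ≤ C2 * y ^ 19 * (1 + l) := by
    have h1 : ((∑ e ∈ P.offDiag, (K1 γ L M P f e).card : ℕ) : ℝ) ≤ 16 * y ^ 19 * (1 + l) := by
      have h1a := sum_K1 γ L M hG P f hKite
      have h1b : ((∑ e ∈ P.offDiag, (K1 γ L M P f e).card : ℕ) : ℝ) ≤ 2 * ((Ss P f).card : ℝ) := by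
        exact_mod_cast h1a
      have h1c : y ^ 15 ≤ y ^ 19 := pow_le_pow_right₀ hy1 (by norm_num)
      have h1d : y ^ 19 ≤ y ^ 19 * (1 + l) := by
        have : 0 < y ^ 19 := by positivity
        nlinarith
      linarith
    have h2 : ((∑ e ∈ P.offDiag, (K3 γ L M P f e).card : ℕ) : ℝ) ≤
        14 * C1 * y ^ 19 * (1 + l) := by
      rw [sum_K3]
      have hSsub : Ss P f ⊆ P.offDiag := Finset.filter_subset _ _
      have h2a := hP1 L M P (Ss P f) (y ^ 4) hG hSsub (one_le_pow₀ hy1)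
      refine h2a.trans ?_
      have e1 : y ^ 4 * ((Ss P f).card : ℝ) ≤ 8 * y ^ 19 := by
        calc y ^ 4 * ((Ss P f).card : ℝ) ≤ y ^ 4 * (8 * y ^ 15) :=
              mul_le_mul_of_nonneg_left hS (by positivity)
          _ = 8 * y ^ 19 := by ring
      have e2 : ((Ss P f).card : ℝ) ^ (2 / 3 : ℝ) ≤ 4 * y ^ 10 := by
        calc ((Ss P f).card : ℝ) ^ (2 / 3 : ℝ) ≤ (8 * y ^ 15) ^ (2 / 3 : ℝ) :=
              Real.rpow_le_rpow (by positivity) hS (by norm_num)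
          _ = 4 * y ^ 10 := by
              have : (8 * y ^ 15 : ℝ) = (2 * y ^ 5) ^ (3 : ℝ) := by
                rw [show (3 : ℝ) = ((3 : ℕ) : ℝ) by norm_num, Real.rpow_natCast]
                ring
              rw [this, ← Real.rpow_mul (by positivity)]
              rw [show (3 : ℝ) * (2 / 3) = ((2 : ℕ) : ℝ) by norm_num, Real.rpow_natCast]
              ring
      have e3 : ((Ss P f).card : ℝ) ^ (2 / 3 : ℝ) * n * (1 + l) ≤ 4 * y ^ 19 * (1 + l) := by
        apply mul_le_mul_of_nonneg_right _ (by linarith)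
        calc ((Ss P f).card : ℝ) ^ (2 / 3 : ℝ) * n ≤ 4 * y ^ 10 * n :=
              mul_le_mul_of_nonneg_right e2 hn0.le
          _ = 4 * y ^ 19 := by rw [← hy9]; ring
      have e4 : n ^ 3 / (y ^ 4) ^ 2 + n ^ 2 ≤ 2 * y ^ 19 := by
        have : n ^ 3 / (y ^ 4) ^ 2 = y ^ 19 := by
          rw [← hy9]; field_simp
        rw [this]
        have h4 : n ^ 2 = y ^ 18 := by rw [← hy9]; ring
        have h1c : y ^ 18 ≤ y ^ 19 := pow_le_pow_right₀ hy1 (by norm_num)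
        linarith
      have e5 : (n ^ 3 / (y ^ 4) ^ 2 + n ^ 2) * (1 + l) ≤ 2 * y ^ 19 * (1 + l) :=
        mul_le_mul_of_nonneg_right e4 (by linarith)
      have e6 : 8 * y ^ 19 ≤ 8 * y ^ 19 * (1 + l) := by
        have : 0 < y ^ 19 := by positivity
        nlinarith
      have e7 : y ^ 4 * ((Ss P f).card : ℝ) + ((Ss P f).card : ℝ) ^ (2 / 3 : ℝ) * n * (1 + l) +
          (n ^ 3 / (y ^ 4) ^ 2 + n ^ 2) * (1 + l) ≤ 14 * y ^ 19 * (1 + l) := by
        linarith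
      calc C1 * (y ^ 4 * ((Ss P f).card : ℝ) + ((Ss P f).card : ℝ) ^ (2 / 3 : ℝ) * n * (1 + l) +
          (n ^ 3 / (y ^ 4) ^ 2 + n ^ 2) * (1 + l)) ≤ C1 * (14 * y ^ 19 * (1 + l)) :=
            mul_le_mul_of_nonneg_left e7 hC1.le
        _ = 14 * C1 * y ^ 19 * (1 + l) := by ring
    calc _ ≤ 16 * y ^ 19 * (1 + l) + 14 * C1 * y ^ 19 * (1 + l) := add_le_add h1 h2
      _ = C2 * y ^ 19 * (1 + l) := by rw [hC2]; ring
  have hA38 : (2 * ((∑ j, (f j).totalDegree : ℕ) : ℝ) + 2 : ℝ) ≤ 38 * y := by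
    rw [← hD]
    linarith
  have hX := sum_Xs γ L M hG P f hKite hCross (38 * y) _ _ (by
    push_cast at hA38 ⊢
    exact hA38) hrho hKK
  have hC2p : 0 < C2 := by positivity
  have hsq : Real.sqrt (n ^ 2 * (38 * y * (C2 * y ^ 19 * (1 + l)))) ≤
      (38 * C2 + 1) * y ^ 19 * (1 + l) := by
    apply Real.sqrt_le_iff.mpr
    have hyp : 0 < y ^ 19 := pow_pos hy0 19
    refine ⟨mul_nonneg (mul_nonneg (by linarith) hyp.le) (by linarith), ?_⟩
    have h4 : n ^ 2 = y ^ 18 := by rw [← hy9]; ring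
    rw [h4]
    have e1 : y ^ 18 * (38 * y * (C2 * y ^ 19 * (1 + l))) = (38 * C2) * (1 + l) * (y ^ 38) := by ring
    have e2 : ((38 * C2 + 1) * y ^ 19 * (1 + l)) ^ 2 = (38 * C2 + 1) ^ 2 * (1 + l) ^ 2 * y ^ 38 := by
      ring
    rw [e1, e2]
    apply mul_le_mul_of_nonneg_right _ (pow_pos hy0 38).le
    have : (38 * C2) ≤ (38 * C2 + 1) ^ 2 := by nlinarith
    have h1l : (1 + l) ≤ (1 + l) ^ 2 := by nlinarith
    exact mul_le_mul this h1l (by linarith) (sq_nonneg _)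
  have hT := total_le L M P f
  have hT' : (((P ×ˢ P ×ˢ P).filter (fun z => Tri L M z.1 z.2.1 z.2.2)).card : ℝ) ≤
      ((∑ e ∈ P.offDiag, (Xs L M P f e).card : ℕ) : ℝ) +
      (((P ×ˢ P ×ˢ P).filter (fun z => Tri L M z.1 z.2.1 z.2.2 ∧
        MvPolynomial.eval z.2.2 (∏ j, f j) = 0)).card : ℝ) := by exact_mod_cast hT
  have hy19 : n ^ (19 / 9 : ℝ) = y ^ 19 := by
    rw [hy, ← Real.rpow_natCast, ← Real.rpow_mul hn0.le]
    norm_num
  rw [hy19]
  have h4 : n ^ 2 = y ^ 18 := by rw [← hy9]; ring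
  have hfirst : 38 * y * (n ^ 2 + 2 * C0 * y ^ 18 * (1 + l)) ≤
      38 * (1 + 2 * C0) * y ^ 19 * (1 + l) := by
    rw [h4]
    have hp : 0 < y ^ 19 := by positivity
    have : 38 * y * (y ^ 18 + 2 * C0 * y ^ 18 * (1 + l)) =
        38 * y ^ 19 + 38 * (2 * C0) * y ^ 19 * (1 + l) := by ring
    rw [this]
    nlinarith
  have hz : 190 * y ^ 19 ≤ 190 * y ^ 19 * (1 + l) := by
    have hp : 0 < y ^ 19 := by positivity
    nlinarith
  have hfin : (((P ×ˢ P ×ˢ P).filter (fun z => Tri L M z.1 z.2.1 z.2.2)).card : ℝ) ≤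
      (38 * (1 + 2 * C0) + (38 * C2 + 1) + 190) * y ^ 19 * (1 + l) := by
    calc _ ≤ _ := hT'
      _ ≤ (38 * y * (n ^ 2 + 2 * C0 * y ^ 18 * (1 + l)) +
          Real.sqrt (n ^ 2 * (38 * y * (C2 * y ^ 19 * (1 + l))))) + 190 * y ^ 19 :=
            add_le_add hX hTZ
      _ ≤ (38 * (1 + 2 * C0) * y ^ 19 * (1 + l) + (38 * C2 + 1) * y ^ 19 * (1 + l)) +
          190 * y ^ 19 * (1 + l) := add_le_add (add_le_add hfirst hsq) hz
      _ = _ := by ring
  refine hfin.trans ?_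
  have hp : 0 ≤ (38 * (1 + 2 * C0) + (38 * C2 + 1) + 190) * y ^ 19 := by positivity
  calc (38 * (1 + 2 * C0) + (38 * C2 + 1) + 190) * y ^ 19 * (1 + l) ≤
      (38 * (1 + 2 * C0) + (38 * C2 + 1) + 190) * y ^ 19 * (3 * l) :=
        mul_le_mul_of_nonneg_left (by linarith) hp
    _ = _ := by ring

end

end Pool.Agent.Helper98.Sim
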