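import Pool.Agent.Helper98.Sim.Comb

open scoped Classical BigOperators
open Finset

namespace Pool.Agent.Helper98.Sim

noncomputable section

abbrev V3 : Type := Fin 3 → ℝ

/-- off the zero sets of all the `f j` -/
def offZ {J : ℕ} (f : Fin J → MvPolynomial (Fin 3) ℝ) (x : V3) : Prop :=
  ∀ j, MvPolynomial.eval x (f j) ≠ 0

/-- apexes of the pair `e` off the zero set -/
def Xs {J : ℕ} (L M : ℝ) (P : Finset V3) (f : Fin J → MvPolynomial (Fin 3) ℝ) (e : V3 × V3) :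
    Finset V3 :=
  P.filter (fun r => Tri L M e.1 e.2 r ∧ offZ f r)

/-- ordered pairs of points of `P` in the same cell -/
def Ss {J : ℕ} (P : Finset V3) (f : Fin J → MvPolynomial (Fin 3) ℝ) : Finset (V3 × V3) :=
  P.offDiag.filter (fun z => offZ f z.1 ∧ offZ f z.2 ∧ sgnp f z.1 = sgnp f z.2)

def K1 {J : ℕ} (γ L M : ℝ) (P : Finset V3) (f : Fin J → MvPolynomial (Fin 3) ℝ) (e : V3 × V3) :
    Finset (V3 × V3) :=
  (Ss P f).filter (fun z => Tri L M e.1 e.2 z.1 ∧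
    ((bisSet P z.1 z.2 ∉ Planes P ∧ e.1 ∈ bisSet P z.1 z.2 ∧ e.2 ∈ bisSet P z.1 z.2) ∨
     (e.1 ∈ domLine γ P (bisSet P z.1 z.2) ∧ e.2 ∈ domLine γ P (bisSet P z.1 z.2))))

def K2 {J : ℕ} (γ L M : ℝ) (P : Finset V3) (f : Fin J → MvPolynomial (Fin 3) ℝ) (e : V3 × V3) :
    Finset (V3 × V3) :=
  (Ss P f).filter (fun z => Tri L M e.1 e.2 z.1 ∧ bisSet P z.1 z.2 ∈ Planes P ∧
    P.card < (bisSet P z.1 z.2).card ^ 2 ∧ e ∈ Wset γ P (bisSet P z.1 z.2))

def K3 {J : ℕ} (γ L M : ℝ) (P : Finset V3) (f : Fin J → MvPolynomial (Fin 3) ℝ) (e : V3 × V3) :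
    Finset (V3 × V3) :=
  (Ss P f).filter (fun z => bisSet P z.1 z.2 ∈ Planes P ∧
    (bisSet P z.1 z.2).card ^ 2 ≤ P.card ∧ e ∈ Wset γ P (bisSet P z.1 z.2) ∧
    Tri L M e.1 e.2 z.1)

/-- number of rich planes through the pair -/
def rho (γ : ℝ) (P : Finset V3) (e : V3 × V3) : ℕ :=
  ((Planes P).filter (fun B => P.card < B.card ^ 2 ∧ e ∈ Wset γ P B)).card

theorem sq_card_Xs {J : ℕ} (γ L M : ℝ) (hG : Good L M) (P : Finset V3)
    (f : Fin J → MvPolynomial (Fin 3) ℝ) (e : V3 × V3) (he : e ∈ P.offDiag) (A : ℕ)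
    (hA : ((Xs L M P f e).image (sgnp f)).card ≤ A) (hK : Kite_stmt) :
    (Xs L M P f e).card ^ 2 ≤ A * ((Xs L M P f e).card + (K1 γ L M P f e).card +
      rho γ P e * (Xs L M P f e).card + (K3 γ L M P f e).card) := by
  obtain ⟨kA, kB, kC, kD, kE, kF, kG⟩ := hK L M hG
  refine (card_sq_le_image _ (sgnp f) A hA).trans ?_
  apply Nat.mul_le_mul_left
  refine le_trans (Nat.add_le_add_left (Finset.card_le_card
    (t := (K1 γ L M P f e ∪ K2 γ L M P f e) ∪ K3 γ L M P f e) ?_) _) ?_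
  · intro z hz
    simp only [mem_filter, mem_offDiag, Xs] at hz
    obtain ⟨⟨⟨h1P, h1T, h1Z⟩, ⟨h2P, h2T, h2Z⟩, hne⟩, hs⟩ := hz
    have hzS : z ∈ Ss P f := by
      simp only [Ss, mem_filter, mem_offDiag]
      exact ⟨⟨h1P, h2P, hne⟩, h1Z, h2Z, hs⟩
    obtain ⟨b1, b2⟩ := kA e.1 e.2 z.1 z.2 h1T h2T
    rw [mem_offDiag] at he
    have m1 : e.1 ∈ bisSet P z.1 z.2 := by
      simp only [bisSet, mem_filter]; exact ⟨he.1, b1⟩
    have m2 : e.2 ∈ bisSet P z.1 z.2 := by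
      simp only [bisSet, mem_filter]; exact ⟨he.2.1, b2⟩
    by_cases hPl : bisSet P z.1 z.2 ∈ Planes P
    · by_cases hW : e ∈ Wset γ P (bisSet P z.1 z.2)
      · by_cases hr : (bisSet P z.1 z.2).card ^ 2 ≤ P.card
        · refine mem_union_right _ ?_
          simp only [K3, mem_filter]
          exact ⟨hzS, hPl, hr, hW, h1T⟩
        · refine mem_union_left _ (mem_union_right _ ?_)
          simp only [K2, mem_filter]
          exact ⟨hzS, h1T, hPl, by omega, hW⟩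
      · refine mem_union_left _ (mem_union_left _ ?_)
        simp only [K1, mem_filter]
        refine ⟨hzS, h1T, Or.inr ?_⟩
        by_contra hcon
        apply hW
        simp only [Wset, mem_filter, mem_offDiag]
        exact ⟨⟨m1, m2, he.2.2⟩, hcon⟩
    · refine mem_union_left _ (mem_union_left _ ?_)
      simp only [K1, mem_filter]
      exact ⟨hzS, h1T, Or.inl ⟨hPl, m1, m2⟩⟩
  have hu1 := Finset.card_union_le (K1 γ L M P f e ∪ K2 γ L M P f e) (K3 γ L M P f e)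
  have hu2 := Finset.card_union_le (K1 γ L M P f e) (K2 γ L M P f e)
  have hK2 : (K2 γ L M P f e).card ≤ rho γ P e * (Xs L M P f e).card := by
    unfold rho
    rw [← Finset.card_product]
    apply Finset.card_le_card_of_injOn (fun z => (bisSet P z.1 z.2, z.1))
    · intro z hz
      simp only [K2, Ss, coe_filter, mem_filter, mem_offDiag, Set.mem_ofPred_eq] at hz
      simp only [coe_product, Set.mem_prod, mem_coe, mem_filter, Xs]
      obtain ⟨⟨⟨h1, h2, h3⟩, h4, h5, h6⟩, h7, h8, h9, h10⟩ := hz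
      exact ⟨⟨h8, h9, h10⟩, h1, h7, h4⟩
    · intro z hz z' hz' hEq
      simp only [K2, Ss, coe_filter, mem_filter, mem_offDiag, Set.mem_ofPred_eq] at hz hz'
      simp only [Prod.mk.injEq] at hEq
      obtain ⟨e1, e2⟩ := hEq
      obtain ⟨⟨⟨h1, h2, h3⟩, h4, h5, h6⟩, h7, h8, h9, h10⟩ := hz
      obtain ⟨⟨⟨g1, g2, g3⟩, g4, g5, g6⟩, g7, g8, g9, g10⟩ := hz'
      have := kD P z.1 z.2 z'.2 h3 (by rw [e2]; exact g3) h8 (by rw [e1, ← e2])
      exact Prod.ext e2 this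
  omega

theorem sum_K1 {J : ℕ} (γ L M : ℝ) (hG : Good L M) (P : Finset V3)
    (f : Fin J → MvPolynomial (Fin 3) ℝ) (hK : Kite_stmt) :
    ∑ e ∈ P.offDiag, (K1 γ L M P f e).card ≤ 2 * (Ss P f).card := by
  obtain ⟨kA, kB, kC, kD, kE, kF, kG⟩ := hK L M hG
  unfold K1
  refine le_trans (le_of_eq ((card_sigma_swap P.offDiag (Ss P f) (fun e z => Tri L M e.1 e.2 z.1 ∧
    ((bisSet P z.1 z.2 ∉ Planes P ∧ e.1 ∈ bisSet P z.1 z.2 ∧ e.2 ∈ bisSet P z.1 z.2) ∨
     (e.1 ∈ domLine γ P (bisSet P z.1 z.2) ∧ e.2 ∈ domLine γ P (bisSet P z.1 z.2))))).trans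
    (card_sigma_swap' P.offDiag (Ss P f) (fun e z => Tri L M e.1 e.2 z.1 ∧
    ((bisSet P z.1 z.2 ∉ Planes P ∧ e.1 ∈ bisSet P z.1 z.2 ∧ e.2 ∈ bisSet P z.1 z.2) ∨
     (e.1 ∈ domLine γ P (bisSet P z.1 z.2) ∧ e.2 ∈ domLine γ P (bisSet P z.1 z.2))))).symm)) ?_
  calc _ ≤ ∑ z ∈ Ss P f, 2 := ?_
    _ = 2 * (Ss P f).card := by rw [Finset.sum_const, smul_eq_mul, mul_comm]
  refine Finset.sum_le_sum (fun z hz => ?_)
  have hne : z.1 ≠ z.2 := by
    simp only [Ss, mem_filter, mem_offDiag] at hz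
    exact hz.1.2.2
  by_cases hPl : bisSet P z.1 z.2 ∈ Planes P
  · refine le_trans (Finset.card_le_card ?_) (kC (domLine γ P (bisSet P z.1 z.2)) z.1 (kG γ P _))
    intro e he
    simp only [mem_filter, mem_offDiag] at he ⊢
    obtain ⟨⟨h1, h2, h3⟩, h4, h5⟩ := he
    rcases h5 with h5 | h5
    · exact absurd hPl h5.1
    · exact ⟨⟨h5.1, h5.2, h3⟩, h4⟩
  · have hc := kF P z.1 z.2 hne hPl
    have hsubdom : ∀ x, x ∈ domLine γ P (bisSet P z.1 z.2) → x ∈ bisSet P z.1 z.2 := by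
      intro x hx
      unfold domLine at hx
      split_ifs at hx with h
      · exact (Classical.choose_spec h).2.1 hx
      · exact absurd hx (Finset.notMem_empty x)
    refine le_trans (Finset.card_le_card ?_) (kC (bisSet P z.1 z.2) z.1 hc)
    intro e he
    simp only [mem_filter, mem_offDiag] at he ⊢
    obtain ⟨⟨h1, h2, h3⟩, h4, h5⟩ := he
    rcases h5 with h5 | h5
    · exact ⟨⟨h5.2.1, h5.2.2, h3⟩, h4⟩
    · exact ⟨⟨hsubdom _ h5.1, hsubdom _ h5.2, h3⟩, h4⟩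

theorem sum_K3 {J : ℕ} (γ L M : ℝ) (P : Finset V3)
    (f : Fin J → MvPolynomial (Fin 3) ℝ) :
    ∑ e ∈ P.offDiag, (K3 γ L M P f e).card =
      (((Ss P f) ×ˢ P.offDiag).filter (fun z => bisSet P z.1.1 z.1.2 ∈ Planes P ∧
      (bisSet P z.1.1 z.1.2).card ^ 2 ≤ P.card ∧ z.2 ∈ Wset γ P (bisSet P z.1.1 z.1.2) ∧
      Tri L M z.2.1 z.2.2 z.1.1)).card := by
  unfold K3
  exact card_sigma_swap' (Ss P f) P.offDiag (fun z e => bisSet P z.1 z.2 ∈ Planes P ∧
      (bisSet P z.1 z.2).card ^ 2 ≤ P.card ∧ e ∈ Wset γ P (bisSet P z.1 z.2) ∧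
      Tri L M e.1 e.2 z.1)

theorem sum_rho (γ : ℝ) (P : Finset V3) :
    ∑ e ∈ P.offDiag, rho γ P e =
      ∑ B ∈ (Planes P).filter (fun B => P.card < B.card ^ 2), (Wset γ P B).card := by
  unfold rho
  refine ((card_sigma_swap P.offDiag (Planes P)
    (fun e B => P.card < B.card ^ 2 ∧ e ∈ Wset γ P B)).trans
    (card_sigma_swap' P.offDiag (Planes P)
      (fun e B => P.card < B.card ^ 2 ∧ e ∈ Wset γ P B)).symm).trans ?_
  rw [Finset.sum_filter]
  refine Finset.sum_congr rfl (fun B hB => ?_)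
  by_cases h : P.card < B.card ^ 2
  · rw [if_pos h]
    congr 1
    ext e
    simp only [mem_filter, h, true_and, and_iff_right_iff_imp]
    intro he
    simp only [Wset, mem_filter, mem_offDiag] at he
    have hBP : B ⊆ P := by
      simp only [Planes, mem_filter, mem_powerset] at hB
      exact hB.1
    exact mem_offDiag.mpr ⟨hBP he.1.1, hBP he.1.2.1, he.1.2.2⟩
  · rw [if_neg h]
    simp [h]

end

end Pool.Agent.Helper98.Sim
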